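import Pool.Agent.MP_249f74_an.H42.Ch
import Pool.Agent.MP_249f74_an.H96A.B3
import Pool.Agent.MP_249f74_an.H96A.Place

/-!
Parity along a path of hypersurfaces; geodesics in the graph of hypersurfaces.
-/

namespace Pool.Agent.MP_249f74_an.H42

open H96A (Fx Inv Full sg Pl grp mem_Fx_one)
open scoped Classical

variable {C Ω κ : Type} [Field C] [Field Ω] [Algebra C Ω]

lemma sp_ev (P : Pl C Ω) {l k : κ → Ω} (h : ∀ i, P.sp (l i) (k i)) (F : MvPolynomial κ C) :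
    P.sp (ev l F) (ev k F) := by
  induction F using MvPolynomial.induction_on with
  | C c => simpa [ev] using P.cst c
  | add p q hp hq => simpa using P.add hp hq
  | mul_X p i hp => simpa [ev] using P.mul hp (h i)

lemma sp_unit [CharZero Ω] (P : Pl C Ω) {a b r : Ω} (h : P.sp a b) (hb : b ≠ 0) (h1 : P.σ a = a)
    (h2 : r ^ 2 = a) : P.σ r = r := by
  have c1 := P.cst 1
  have c2 := P.cst (-1)
  simp only [map_neg, map_one] at c1 c2
  rcases P.tot r with ⟨c, hc⟩ | ⟨h0, hc⟩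
  · rcases sq_eq_sq_iff_eq_or_eq_neg.1 (show P.σ r ^ 2 = r ^ 2 by rw [← map_pow, h2, h1]) with k | k
    · exact k
    · have e1 := P.fn (P.mul c2 hc) (by simpa [k] using P.ine hc)
      have e2 := P.fn (P.mul hc hc) (by rwa [← sq, h2])
      exact absurd (by linear_combination -e2 - c / 2 * e1) hb
  · have := P.mul (P.mul hc hc) h
    rw [← h2, show r⁻¹ * r⁻¹ * r ^ 2 = 1 by field_simp] at this
    simpa using P.fn this c1

lemma odd {l : κ → Ω} {Ψ Φ : MvPolynomial κ C} (hl : Cur C l) (hΨ : Squarefree Ψ)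
    (h1 : ev l Ψ = 0) (h2 : ev l Φ ≠ 0) :
    ∃ Ψ' A : MvPolynomial κ C, Squarefree Ψ' ∧ A ≠ 0 ∧ Ψ * Φ = Ψ' * A ^ 2 ∧ ev l Ψ' = 0 := by
  obtain ⟨π, hπ, hk⟩ := hl
  have hΦ : Φ ≠ 0 := fun h => h2 (by rw [h, map_zero])
  obtain ⟨Ψ', A, p1, p2, p3⟩ := H96A.Bt.sqfree (Ψ * Φ) (mul_ne_zero hΨ.ne_zero hΦ)
  refine ⟨Ψ', A, p1, p2, p3, (hk _).2 ?_⟩
  have d1 : π ∣ Ψ' * A ^ 2 := p3 ▸ ((hk _).1 h1).mul_right _
  rcases hπ.dvd_or_dvd d1 with d2 | d2
  · exact d2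
  · have d3 : π ^ 2 ∣ Ψ * Φ := p3 ▸ (pow_dvd_pow_of_dvd (hπ.dvd_of_dvd_pow d2) 2).mul_left _
    have d4 : π ^ 2 ∣ Ψ := hπ.pow_dvd_of_dvd_mul_right 2 (fun h => h2 ((hk _).2 h)) d3
    exact absurd (hΨ π (by rwa [← sq])) hπ.not_isUnit

section Closed

variable [IsAlgClosed Ω]

lemma conj [Finite κ] {l l' : κ → Ω} (h : ∀ F : MvPolynomial κ C, ev l F = 0 ↔ ev l' F = 0) :
    ∃ σ : Ω ≃ₐ[C] Ω, mp σ l = l' :=
  (H96A.Bt.conj_fam l l' h).imp fun _ h => funext h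

variable [CharZero Ω]

lemma sqf (hf : Sf C Ω κ) {l : κ → Ω} {θ : Ω} (hl : Gen C l) (h0 : θ ≠ 0) (hθ : Inv (FL C l) θ) :
    ∃ (Ψ : MvPolynomial κ C) (u : Ω), Squarefree Ψ ∧ u ≠ 0 ∧ Inv (FL C l) u ∧
      θ = ev l Ψ * u ^ 2 := by
  have h1 := H96A.Bt.dcl _ θ (hf l hl) hθ
  rw [IntermediateField.mem_adjoin_range_iff] at h1
  obtain ⟨A, B, hAB⟩ := h1
  change θ = ev l A / ev l B at hAB
  have hA : ev l A ≠ 0 := fun h => h0 (by rw [hAB, h, zero_div])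
  have hB : ev l B ≠ 0 := fun h => h0 (by rw [hAB, h, div_zero])
  have hA0 : A ≠ 0 := fun h => hA (by rw [h, map_zero])
  have hB0 : B ≠ 0 := fun h => hB (by rw [h, map_zero])
  obtain ⟨Ψ, U, p1, p2, p3⟩ := H96A.Bt.sqfree (A * B) (mul_ne_zero hA0 hB0)
  have hU : ev l U ≠ 0 := fun h => p2 (hl U h)
  refine ⟨Ψ, ev l U / ev l B, p1, div_ne_zero hU hB, (inv_ev _ _).div (inv_ev _ _), ?_⟩
  have h2 := congrArg (ev l) p3
  rw [map_mul, map_mul, map_pow] at h2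
  rw [hAB, div_pow, ← mul_div_assoc, ← h2]
  field_simp

lemma place [IsAlgClosed C] (hf : Sf C Ω κ) {l k : κ → Ω} {Ψ : MvPolynomial κ C} (hl : Gen C l)
    (hk : Cur C k) (hΨ : Squarefree Ψ) (h0 : ev k Ψ = 0) :
    ∃ P : Pl C Ω, Sp P l k ∧ ∀ r, r ^ 2 = ev l Ψ → P.σ r = -r := by
  obtain ⟨π, h1, h2⟩ := hk
  obtain ⟨P, h3, h4⟩ := H96A.place κ l k π Ψ (algebraicIndependent_iff.2 hl) (hf l hl) h1 h2 hΨ
    ((h2 Ψ).1 h0)
  exact ⟨P, ⟨fun i => (h3 i).1, mem_FL.2 (funext fun i => (h3 i).2)⟩, h4⟩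

end Closed

namespace Sys

variable {S : Sys C Ω κ} {m : ℤ → S.M} {L K : ℤ → κ → Ω} {t u : ℤ → Ω} {a b : ℤ}

/-- A conjugate of the chain specializes to the chain of hypersurfaces. -/
lemma lift (hB : S.Bas) (hL : S.LIFT) (hc : S.Chn m L t a b) (hg : Gen C (L a))
    (hF : ∀ i, a ≤ i → i < b → S.FR m L t a i) (hk : S.Chn m K u a b) (P : Pl C Ω)
    (hP : Sp P (L a) (K a)) (i : ℤ) (hi : a ≤ i) : i ≤ b →
      ∃ g : Ω ≃ₐ[C] Ω, mp g (L a) = L a ∧ (∀ s, a ≤ s → s ≤ i → Sp P (mp g (L s)) (K s)) ∧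
        ∀ s, a ≤ s → s < i → P.sp (g (t s)) (u s) ∧ P.σ (g (t s)) = g (t s) := by
  induction i, hi using Int.leInduction with
  | base =>
    refine fun _ => ⟨1, rfl, fun s h1 h2 => ?_, fun s h1 h2 => by omega⟩
    obtain rfl : s = a := by omega
    exact hP
  | succ i hi ih =>
    intro hb
    obtain ⟨g, g0, g1, g2⟩ := ih (by omega)
    obtain ⟨y, l', s1, s2, s3, s4⟩ := hL P (m i) (mp g (L i)) (K i) (K (i + 1)) (u i)
      ((hc.gen hB hg le_rfl (by omega) hi (by omega)).mp g) (g1 i hi le_rfl) (hk.st i hi hb)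
    have s5 := hB.map _ _ _ _ g⁻¹ s1
    rw [mp_inv] at s5
    have m1 : g⁻¹ y ∈ S.Fr m L t a i := by
      have := hB.mem _ _ _ _ s5
      unfold Fr
      split_ifs with hai
      · refine Finset.mem_erase.2 ⟨fun e => ?_, this⟩
        have q := (g2 (i - 1) (by omega) (by omega)).1
        rw [← e, show g (g⁻¹ y) = y from g.apply_symm_apply y] at q
        exact hk.nb' hai hb (P.fn s3 q)
      · exact this
    obtain ⟨h, hh, e⟩ := grp.trans _ _ _ _ (hF i hi hb) ((hc.mono le_rfl hb).mem_fr hB hi) m1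
    have ey : (g * h) (t i) = y := by
      rw [AlgEquiv.mul_apply, e]
      exact g.apply_symm_apply _
    have el : ∀ s, a ≤ s → s ≤ i → mp (g * h) (L s) = mp g (L s) := fun s h1 h2 => by
      rw [mp_mul, mem_FL.1 (hh.1 s h1 h2)]
    refine ⟨g * h, by rw [el a le_rfl hi, g0], fun s h1 h2 => ?_, fun s h1 h2 => ?_⟩
    · rcases eq_or_lt_of_le h2 with rfl | h2'
      · have s6 := hB.map _ _ _ _ (g * h) (hc.st i hi hb)
        rw [el i hi le_rfl, ey] at s6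
        rwa [hB.det _ _ _ _ _ s6 s1]
      · rw [el s h1 (by omega)]
        exact g1 s h1 (by omega)
    · rcases eq_or_lt_of_le (show s ≤ i by omega) with rfl | h2'
      · rw [ey]
        exact ⟨s3, s4⟩
      · rw [AlgEquiv.mul_apply, hh.2 s h1 h2']
        exact g2 s h1 h2'

/-- Parity along a path of hypersurfaces. -/
theorem par [IsAlgClosed C] [IsAlgClosed Ω] [CharZero Ω] (hf : Sf C Ω κ) (hB : S.Bas)
    (hL : S.LIFT) {j : ℤ} {Ψ Φ Φ' : MvPolynomial κ C} {r : Ω} (haj : a ≤ j) (hjb : j ≤ b)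
    (hc : S.Chn m L t a b) (hg : Gen C (L a)) (hF : ∀ i, a ≤ i → i < b → S.FR m L t a i)
    (hk : S.Chn m K u a b) (hcur : Cur C (K a)) (hΨ : Squarefree Ψ) (h0 : ev (K a) Ψ = 0)
    (hj : ev (K j) Φ ≠ 0) (hb : ev (K b) Φ' ≠ 0)
    (hr : r ^ 2 = ev (L a) Ψ * ev (L j) Φ * ev (L b) Φ') : ¬Inv (Hg C L t a b) r := by
  intro hI
  obtain ⟨P, hP, hσ⟩ := place hf hg hcur hΨ h0
  obtain ⟨g, g0, g1, g2⟩ := lift hB hL hc hg hF hk P hP b (haj.trans hjb) le_rfl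
  have hr' : P.σ (g r) = g r := g.symm_apply_eq.1 (hI (g⁻¹ * P.σ * g) ⟨fun s h1 h2 => by
    rw [mem_FL, mp_mul, mp_mul, mem_FL.1 (g1 s h1 h2).fx, mp_inv], fun s h1 h2 => by
    rw [AlgEquiv.mul_apply, AlgEquiv.mul_apply, (g2 s h1 h2).2]
    exact g.symm_apply_apply _⟩)
  obtain ⟨r1, e1⟩ := IsAlgClosed.exists_pow_nat_eq (ev (L a) Ψ) two_pos
  have n1 : r1 ≠ 0 := fun e => hΨ.ne_zero (hg Ψ (by rw [← e1, e]; simp))
  have pj := g1 j haj hjb
  have pb := g1 b (haj.trans hjb) le_rfl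
  have sA := P.mul (sp_ev P pj.sp Φ) (sp_ev P pb.sp Φ')
  have eA : (g r / r1) ^ 2 = ev (mp g (L j)) Φ * ev (mp g (L b)) Φ' := by
    have := congrArg g hr
    rw [map_pow, map_mul, map_mul, ← ev_mp, ← ev_mp, ← ev_mp, g0, ← e1] at this
    rw [div_pow, this]
    field_simp
  have hu := sp_unit P sA (mul_ne_zero hj hb)
    (by rw [map_mul, inv_ev _ _ _ pj.fx, inv_ev _ _ _ pb.fx]) eA
  rw [map_div₀, hr', hσ r1 e1, div_neg] at hu
  rw [← eA, show g r / r1 = 0 by linear_combination (-1 / 2 : Ω) * hu] at sA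
  exact mul_ne_zero hj hb (P.fn sA (by simpa using P.cst 0))

end Sys

variable (C) in
/-- Invariant sets of hypersurfaces with finitely many orbits. -/
structure Good (B : Set (κ → Ω)) : Prop where
  cur : ∀ l ∈ B, Cur C l
  inv : ∀ σ : Ω ≃ₐ[C] Ω, ∀ l ∈ B, mp σ l ∈ B
  fin : ∃ T : Set (κ → Ω), T.Finite ∧ T ⊆ B ∧ ∀ l ∈ B, ∃ s ∈ T, ∃ σ : Ω ≃ₐ[C] Ω, mp σ s = l

section Good

variable [IsAlgClosed Ω] [Finite κ]

lemma good_zero {F : MvPolynomial κ C} (hF : F ≠ 0) :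
    Good C {l : κ → Ω | Cur C l ∧ ev l F = 0} := by
  refine ⟨fun l hl => hl.1, fun σ l hl => ⟨hl.1.mp σ, by rw [ev_mp, hl.2, map_zero]⟩, ?_⟩
  let f : (κ → Ω) → Set (MvPolynomial κ C) := fun l => {G | ev l G = 0}
  have hfin : (f '' {l | Cur C l ∧ ev l F = 0}).Finite := by
    refine ((UniqueFactorizationMonoid.factors F).toFinset.finite_toSet.image
      fun π => {G | π ∣ G}).subset ?_
    rintro _ ⟨l, ⟨⟨π, hπ, hk⟩, hl⟩, rfl⟩
    obtain ⟨q, hq, hq'⟩ := UniqueFactorizationMonoid.exists_mem_factors_of_dvd hF hπ.irreducible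
      ((hk F).mp hl)
    refine ⟨q, by simpa using hq, ?_⟩
    ext G
    change q ∣ G ↔ ev l G = 0
    rw [hk, hq'.dvd_iff_dvd_left]
  obtain ⟨T, hT, hTf, hTe⟩ := (Set.exists_subset_image_finite_and
    (p := fun s => s = f '' {l | Cur C l ∧ ev l F = 0})).mp ⟨_, subset_rfl, hfin, rfl⟩
  refine ⟨T, hTf, hT, fun l hl => ?_⟩
  obtain ⟨s, hs, hte⟩ : f l ∈ f '' T := hTe ▸ ⟨l, hl, rfl⟩
  exact ⟨s, hs, conj fun G => Set.ext_iff.mp hte G⟩

lemma Good.eq {B : Set (κ → Ω)} (h : Good C B) :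
    ∃ G : MvPolynomial κ C, G ≠ 0 ∧ ∀ l, l ∈ B ↔ Cur C l ∧ ev l G = 0 := by
  obtain ⟨T, hTf, hT, hS⟩ := h.fin
  choose π hπ hk using h.cur
  refine ⟨∏ s : hTf.toFinset, π s (hT (hTf.mem_toFinset.1 s.2)),
    Finset.prod_ne_zero_iff.mpr fun s _ => (hπ _ _).ne_zero,
    fun l => ⟨fun hl => ⟨⟨_, hπ l hl, hk l hl⟩, ?_⟩, fun ⟨⟨π', h1, h2⟩, h0⟩ => ?_⟩⟩
  · obtain ⟨s, hs, σ, rfl⟩ := hS l hl
    rw [ev_mp, (hk s (hT hs) _).mpr (Finset.dvd_prod_of_mem _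
      (Finset.mem_univ (⟨s, hTf.mem_toFinset.mpr hs⟩ : hTf.toFinset))), map_zero]
  · rw [map_prod, Finset.prod_eq_zero_iff] at h0
    obtain ⟨⟨s, hs⟩, -, h0⟩ := h0
    have hs' := hT (hTf.mem_toFinset.mp hs)
    obtain ⟨σ, rfl⟩ := conj (C := C) (l := s) (l' := l) fun G => by
      rw [hk s hs', h2, (h1.associated_of_dvd (hπ s hs') ((h2 _).mp h0)).dvd_iff_dvd_left]
    exact h.inv σ s hs'

end Good

namespace Sys

variable {S : Sys C Ω κ}

/-- The balls around a set. -/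
def ball (μ : S.M) (B : Set (κ → Ω)) : ℕ → Set (κ → Ω)
  | 0 => B
  | j + 1 => ball μ B j ∪ {l' | ∃ l ∈ ball μ B j, ∃ y, S.St μ l y l'}

lemma ball_mono (μ : S.M) (B : Set (κ → Ω)) : Monotone (ball μ B) :=
  monotone_nat_of_le_succ fun _ => Set.subset_union_left

lemma good_ball (hB : S.Bas) (μ : S.M) {B : Set (κ → Ω)} (h : Good C B) (j : ℕ) :
    Good C (ball μ B j) := by
  induction j with
  | zero => exact h
  | succ j h =>
    obtain ⟨T, hTf, hT, hS⟩ := h.fin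
    have hfin : ∀ s, {l | ∃ y, S.St μ s y l}.Finite := fun s =>
      ((S.Pts μ s).finite_toSet.biUnion fun y _ => Set.Subsingleton.finite
        (s := {l | S.St μ s y l}) fun _ h _ h' => hB.det _ _ _ _ _ h h').subset
        fun l ⟨y, hy⟩ => Set.mem_biUnion (x := y) (hB.mem _ _ _ _ hy) hy
    refine ⟨?_, ?_, T ∪ ⋃ s ∈ T, {l | ∃ y, S.St μ s y l},
      hTf.union (hTf.biUnion fun s _ => hfin s), ?_, ?_⟩
    · rintro l' (hl | ⟨l, hl, y, hy⟩)
      exacts [h.cur _ hl, hB.cur _ _ _ _ hy (h.cur l hl)]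
    · rintro σ l' (hl | ⟨l, hl, y, hy⟩)
      exacts [Or.inl (h.inv σ _ hl), Or.inr ⟨_, h.inv σ l hl, _, hB.map _ _ _ _ σ hy⟩]
    · rintro l (hl | hl)
      · exact Or.inl (hT hl)
      · obtain ⟨s, hs, y, hy⟩ := Set.mem_iUnion₂.mp hl
        exact Or.inr ⟨s, hT hs, y, hy⟩
    · rintro l' (hl | ⟨l, hl, y, hy⟩)
      · obtain ⟨s, hs, σ, hσ⟩ := hS _ hl
        exact ⟨s, Or.inl hs, σ, hσ⟩
      · obtain ⟨s, hs, σ, rfl⟩ := hS _ hl
        have h4 := hB.map _ _ _ _ σ⁻¹ hy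
        rw [mp_inv] at h4
        exact ⟨mp σ⁻¹ l', Or.inr (Set.mem_biUnion hs ⟨_, h4⟩), σ, mp_inv' l'⟩

lemma path (μ : S.M) (B : Set (κ → Ω)) (j : ℕ) : ∀ l ∈ ball μ B j,
    (∀ i < j, l ∉ ball μ B i) → ∃ (K : ℕ → κ → Ω) (u : ℕ → Ω), K j = l ∧
      (∀ i ≤ j, K i ∈ ball μ B i ∧ ∀ i' < i, K i ∉ ball μ B i') ∧
      ∀ i < j, S.St μ (K i) (u i) (K (i + 1)) := by
  induction j with
  | zero =>
    intro l hl _
    refine ⟨fun _ => l, fun _ => 0, rfl, fun i hi => ?_, fun i hi => absurd hi (by omega)⟩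
    obtain rfl : i = 0 := by omega
    exact ⟨hl, fun i' hi' => absurd hi' (by omega)⟩
  | succ j ih =>
    intro l' hl hn
    rcases id hl with h0 | ⟨l, h0, v, hv⟩
    · exact absurd h0 (hn j (by omega))
    obtain ⟨K, u, hK, hB, hst⟩ := ih l h0 fun i hi hb =>
      hn (i + 1) (by omega) (Or.inr ⟨l, hb, v, hv⟩)
    refine ⟨Function.update K (j + 1) l', Function.update u j v, Function.update_self .., ?_, ?_⟩
    · intro i hi
      rcases Nat.lt_or_ge i (j + 1) with h1 | h1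
      · rw [Function.update_of_ne h1.ne]
        exact hB i (by omega)
      · obtain rfl : i = j + 1 := by omega
        rw [Function.update_self]
        exact ⟨hl, hn⟩
    · intro i hi
      rcases Nat.lt_or_ge i j with h1 | h1
      · rw [Function.update_of_ne hi.ne, Function.update_of_ne h1.ne,
          Function.update_of_ne (by omega)]
        exact hst i h1
      · obtain rfl : i = j := by omega
        rw [Function.update_of_ne hi.ne, Function.update_self, Function.update_self, hK]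
        exact hv

/-- Geodesics in the graph of hypersurfaces. -/
theorem geo [IsAlgClosed Ω] [Finite κ] (hB : S.Bas) {μ : S.M} {F : MvPolynomial κ C} {k : κ → Ω}
    (hF : F ≠ 0) (hk : Cur C k) (hkF : ev k F = 0) (hc : ∀ G : MvPolynomial κ C, G ≠ 0 →
      ev k G = 0 → ¬∀ l y l', S.St μ l y l' → Cur C l → ev l G = 0 → ev l' G = 0) {a b : ℤ}
    (hab : a < b) : ∃ (K : ℤ → κ → Ω) (u : ℤ → Ω), S.Chn (fun _ => μ) K u a b ∧ Cur C (K a) ∧
      ev (K a) F = 0 ∧ ev (K b) F ≠ 0 := by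
  obtain ⟨j, rfl⟩ : ∃ j : ℕ, b = a + (j + 1 : ℕ) := ⟨(b - a - 1).toNat, by omega⟩
  have hg := good_zero (Ω := Ω) hF
  set B : Set (κ → Ω) := {l | Cur C l ∧ ev l F = 0}
  obtain ⟨l, hl, hl'⟩ := Set.not_subset.mp (show ¬ball μ B (j + 1) ⊆ ball μ B j from fun hs => by
    obtain ⟨G, hG, h⟩ := (good_ball hB μ hg j).eq
    exact hc G hG ((h k).1 (ball_mono μ B (Nat.zero_le j) ⟨hk, hkF⟩)).2 fun l y l' s c e =>
      ((h l').1 (hs (Or.inr ⟨l, (h l).2 ⟨c, e⟩, y, s⟩))).2)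
  obtain ⟨K, u, hK, h1, hst⟩ := path μ B (j + 1) l hl fun i hi hb =>
    hl' (ball_mono μ B (by omega) hb)
  have h0 : K 0 ∈ B := (h1 0 (by omega)).1
  refine ⟨fun i => K (i - a).toNat, fun i => u (i - a).toNat, ⟨fun i hi hi' => ?_,
    fun i hi hi' hy => ?_⟩, by simpa using h0.1, by simpa using h0.2, fun hz => ?_⟩
  · rw [show (i + 1 - a).toNat = (i - a).toNat + 1 by omega]
    exact hst _ (by omega)
  · rw [show (i + 1 - a).toNat = (i - a).toNat + 1 by omega] at hy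
    have h2 : (i - a).toNat + 1 < j + 1 := by omega
    generalize (i - a).toNat = n at hy h2
    exact (h1 (n + 1 + 1) h2).2 n (by omega) (hB.det _ _ _ _ _
      (hB.symm _ _ _ _ (hst n (by omega))) (hy ▸ hst (n + 1) h2) ▸ (h1 n (by omega)).1)
  · simp only [show (a + (j + 1 : ℕ) - a).toNat = j + 1 by omega] at hz
    have h4 := h1 (j + 1) le_rfl
    exact h4.2 0 (by omega) ⟨(good_ball hB μ hg (j + 1)).cur _ h4.1, hz⟩

end Sys

end Pool.Agent.MP_249f74_an.H42
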