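import Pool.Agent.MP_249f74_an.H42.Par

/-!
An orbit in a quadric without a second split tangent edge leaves every hypersurface.
-/

namespace Pool.Agent.MP_249f74_an.H42.Sys

open H96A (Fx Inv)
open scoped Classical

variable {C Ω κ : Type} [Field C] [Field Ω] [Algebra C Ω] {S : Sys C Ω κ}

lemma Sec.tl_mp (hS : S.Sec) {m : S.M} {k : κ → Ω} (hq : S.Qd m) (h : S.Tl m k)
    (σ : Ω ≃ₐ[C] Ω) : S.Tl m (mp σ k) :=
  hS.tq _ _ hq ((hS.cur _ _ h).mp σ) (by rw [ev_mp, hS.own _ _ h, map_zero])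

lemma inv_mp {k : κ → Ω} {u : Ω} (h : Inv (FL C k) u) (σ : Ω ≃ₐ[C] Ω) :
    Inv (FL C (mp σ k)) (σ u) := fun ρ hρ =>
  σ.symm_apply_eq.1 (h (σ⁻¹ * ρ * σ) (by rw [mem_FL, mp_mul, mp_mul, mem_FL.1 hρ, mp_inv]))

/-- A conjugation of two steps of an orbit in a quadric extends backwards. -/
lemma back (hB : S.Bas) {m : S.M} (hq : S.Qd m) {K : ℤ → κ → Ω} {w : ℤ → Ω}
    (hK : ∀ n, S.Chn (fun _ => m) K w 0 n) {d : ℤ} (hd : 0 ≤ d) (τ : Ω ≃ₐ[C] Ω) (i : ℤ)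
    (hi : 0 ≤ i) : mp τ (K i) = K (i + d) → τ (w i) = w (i + d) →
      mp τ (K 0) = K d ∧ τ (w 0) = w d := by
  induction i, hi using Int.leInduction with
  | base => exact fun h1 h2 => ⟨by rwa [zero_add] at h1, by rwa [zero_add] at h2⟩
  | succ n hn ih =>
    intro h1 h2
    have s1 := hB.symm _ _ _ _ (hB.map _ _ _ _ τ ((hK (n + 1)).st n hn (by omega)))
    have s2 := hB.symm _ _ _ _ ((hK (n + d + 1)).st (n + d) (by omega) (by omega))
    rw [add_right_comm] at h1 h2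
    rw [h1] at s1
    have e : τ (w n) = w (n + d) := other (hB.two m _ hq)
      (hB.mem _ _ _ _ ((hK (n + d + 2)).st (n + d + 1) (by omega) (by omega)))
      (hB.mem _ _ _ _ s2) (hB.mem _ _ _ _ s1)
      ((hK (n + d + 2)).nb (n + d) (by omega) (by omega)).symm fun c =>
        (hK (n + 2)).nb n hn (by omega) (τ.injective (c.trans h2.symm))
    rw [e] at s1
    exact ih (hB.det _ _ _ _ _ s1 s2) e

variable [IsAlgClosed Ω] [Finite κ]

/-- An orbit without a second split tangent edge leaves every hypersurface. -/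
theorem esc (hB : S.Bas) (hS : S.Sec) {m m' : S.M} (hq : S.Qd m) (hq' : S.Qd m')
    {K : ℤ → κ → Ω} {w : ℤ → Ω} (hK : ∀ n, S.Chn (fun _ => m) K w 0 n) (h0 : S.Tl m' (K 0))
    (hw : Inv (FL C (K 0)) (w 0))
    (hn : ∀ i, 2 ≤ i → S.Tl m' (K i) → ¬Inv (FL C (K i)) (w i))
    (G : MvPolynomial κ C) (hG : G ≠ 0) : ∃ N, ∀ i, N ≤ i → ev (K i) G ≠ 0 := by
  by_contra hc
  push Not at hc
  obtain ⟨T, hT, -, hT'⟩ := (good_zero (Ω := Ω) hG).fin
  have hI : {i : ℤ | 0 ≤ i ∧ ev (K i) G = 0}.Infinite := Set.infinite_of_forall_exists_gt fun a =>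
    (hc (max 0 (a + 1))).imp fun i h => ⟨⟨by omega, h.2⟩, by omega⟩
  have h1 : ∀ i : ℤ, ∃ (s : κ → Ω) (σ : Ω ≃ₐ[C] Ω), 0 ≤ i → ev (K i) G = 0 →
      s ∈ T ∧ mp σ s = K i := fun i => by
    by_cases c : 0 ≤ i ∧ ev (K i) G = 0
    · obtain ⟨s, k1, σ, k2⟩ := hT' (K i)
        ⟨(hK i).cur hB (hS.cur _ _ h0) le_rfl c.1 c.1 le_rfl, c.2⟩
      exact ⟨s, σ, fun _ _ => ⟨k1, k2⟩⟩
    · exact ⟨0, 1, fun a b => absurd ⟨a, b⟩ c⟩
  choose s σ hs using h1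
  have hU : ((⋃ l ∈ T, ({l} : Set (κ → Ω)) ×ˢ (S.Pts m l : Set Ω)) ×ˢ ({0, 1} : Set ℤ)).Finite :=
    (hT.biUnion fun l _ => (Set.finite_singleton l).prod (S.Pts m l).finite_toSet).prod
      (Set.toFinite _)
  obtain ⟨i, ⟨i0, hi⟩, j, ⟨j0, hj⟩, hij, e⟩ := hI.exists_lt_map_eq_of_mapsTo
    (f := fun i => ((s i, (σ i)⁻¹ (w i)), i % 2)) (fun i ⟨i0, hi⟩ => Set.mk_mem_prod (by
      have := hB.map _ _ _ _ (σ i)⁻¹ ((hK (i + 1)).st i i0 (by omega))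
      rw [← (hs i i0 hi).2, mp_inv] at this
      exact Set.mem_biUnion (hs i i0 hi).1 ⟨rfl, hB.mem _ _ _ _ this⟩) (by
      simpa using Int.emod_two_eq_zero_or_one i)) hU
  simp only [Prod.mk.injEq] at e
  obtain ⟨⟨e1, e2⟩, e3⟩ := e
  obtain ⟨k1, k2⟩ := back hB hq hK (d := j - i) (by omega) (σ j * (σ i)⁻¹) i i0 (by
    rw [← (hs i i0 hi).2, mp_mul, mp_inv, e1, (hs j j0 hj).2, add_sub_cancel]) (by
    rw [AlgEquiv.mul_apply, e2, add_sub_cancel]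
    exact (σ j).apply_symm_apply _)
  refine hn (j - i) (by omega) ?_ ?_
  · rw [← k1]
    exact hS.tl_mp hq' h0 _
  · rw [← k1, ← k2]
    exact inv_mp hw _

variable (S) in
/-- The orbit of a split tangent edge is infinite and has no second split tangent edge. -/
def SPL : Prop :=
  ∀ m m' k u k', S.Qd m → S.Qd m' → m' ≠ m → ¬S.Cm m m' → S.Tl m' k → S.St m k u k' →
    Inv (FL C k) u → ∃ (K : ℕ → κ → Ω) (w : ℕ → Ω), K 0 = k ∧ w 0 = u ∧
      (∀ n, S.St m (K n) (w n) (K (n + 1)) ∧ w n ≠ w (n + 1)) ∧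
      ∀ i m'', 2 ≤ i → S.Qd m'' → m'' ≠ m → S.Tl m'' (K i) → ¬Inv (FL C (K i)) (w i)

theorem split (hB : S.Bas) (hS : S.Sec) (h : S.SPL) : S.SPLIT := by
  intro m m' k u k' hq hq' hne hcm hk st hu
  obtain ⟨K, w, k0, w0, h1, h2⟩ := h m m' k u k' hq hq' hne hcm hk st hu
  have hK : ∀ n, S.Chn (fun _ => m) (fun i => K i.toNat) (fun i => w i.toNat) 0 n := fun n =>
    ⟨fun i c _ => by
      rw [show (i + 1).toNat = i.toNat + 1 by omega]
      exact (h1 _).1, fun i c _ => by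
      rw [show (i + 1).toNat = i.toNat + 1 by omega]
      exact (h1 _).2⟩
  have h3 : ∀ (i : ℤ) m'', 2 ≤ i → S.Qd m'' → m'' ≠ m → S.Tl m'' (K i.toNat) →
      ¬Inv (FL C (K i.toNat)) (w i.toNat) := fun i m'' c => h2 _ m'' (by omega)
  exact ⟨_, _, k0, w0, hK, esc hB hS hq hq' hK (by simpa [k0] using hk) (by simpa [k0, w0] using hu)
    fun i c => h3 i m' c hq' hne, h3⟩

end Pool.Agent.MP_249f74_an.H42.Sys
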