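import Pool.Agent.MP_249f74_an.H42.S2b
import Pool.Agent.MP_249f74_an.H78.SplFree

/-!
The orbit of an edge that is tangent to a tangent cone of the mirror.
-/

open Matrix hiding vec

namespace Pool.Agent.MP_249f74_an.H42.S2

open H17.Cm (grad rf hat vec sp quad aff dv symm_dot vec_dot)
open H32 H78

variable {k C Ω ι : Type} [Field k] [Algebra k ℝ] [Field C] [Algebra k C] [Field Ω] [Algebra C Ω]

lemma dc {α : Type} {p : ℕ → α → Prop} {r : α → α → Prop} {a : α} (h0 : p 0 a)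
    (h : ∀ n a, p n a → ∃ b, p (n + 1) b ∧ r a b) :
    ∃ f : ℕ → α, f 0 = a ∧ ∀ n, p n (f n) ∧ r (f n) (f (n + 1)) := by
  have : Nonempty α := ⟨a⟩
  choose! g hg using h
  have k : ∀ n, p n (Nat.rec a g n) := fun n => by
    induction n with
    | zero => exact h0
    | succ n ih => exact (hg _ _ ih).1
  exact ⟨fun n => Nat.rec a g n, rfl, fun n => ⟨k n, (hg _ _ (k n)).2⟩⟩

lemma indep [IsAlgClosed C] {ρ : Ω} (h : ρ ∉ (algebraMap C Ω).range) {α β γ : C}
    (e : algebraMap C Ω α * ρ ^ 2 + algebraMap C Ω β * ρ + algebraMap C Ω γ = 0) :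
    α = 0 ∧ β = 0 := by
  have h1 : Polynomial.C α * Polynomial.X ^ 2 + Polynomial.C β * Polynomial.X + Polynomial.C γ =
      0 := by_contra fun c => h (minpoly.mem_range_of_degree_eq_one C ρ
    (IsAlgClosed.degree_eq_one_of_irreducible C (minpoly.irreducible
      (IsAlgebraic.isIntegral ⟨_, c, by simpa using e⟩))))
  exact ⟨by simpa using congrArg (·.coeff 2) h1, by simpa using congrArg (·.coeff 1) h1⟩

variable [CharZero Ω]

lemma arith [IsAlgClosed C] {c : C} {τ H Q μ : Ω} (τ0 : τ ≠ 0) (Q0 : Q ≠ 0) (H0 : H ≠ 0)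
    (hr : ∀ s : C, algebraMap C Ω c * Q ≠ algebraMap C Ω s * H ^ 2)
    (e0 : algebraMap C Ω c * τ ^ 2 + 2 * τ * H * μ - Q * μ ^ 2 = 0) (n : ℕ) :
    μ + n * (2 * τ * H / Q) ≠ 0 ∧ ∀ c' e : C, 1 ≤ n → c' ≠ 0 →
      algebraMap C Ω c' * τ ^ 2 + 2 * τ * algebraMap C Ω e ^ 2 * H * (μ + n * (2 * τ * H / Q)) -
        Q * algebraMap C Ω e ^ 2 * (μ + n * (2 * τ * H / Q)) ^ 2 ≠ 0 := by
  have : CharZero C := (algebraMap C Ω).charZero
  obtain ⟨ρ, rfl⟩ : ∃ ρ, μ = ρ * (τ * H / Q) := ⟨μ * Q / (τ * H), by field_simp⟩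
  have e1 : algebraMap C Ω c * Q = (ρ ^ 2 - 2 * ρ) * H ^ 2 := by
    field_simp at e0
    rw [mul_zero, mul_eq_zero, or_iff_right (pow_ne_zero 2 τ0)] at e0
    linear_combination e0
  have hρ : ρ ∉ (algebraMap C Ω).range := fun ⟨r, e⟩ =>
    hr (r ^ 2 - 2 * r) (by rw [e1, ← e]; simp [map_ofNat])
  refine ⟨fun e => one_ne_zero (indep hρ (α := 0) (β := 1) (γ := 2 * n) ?_).2,
    fun c' e hn c0 k => ?_⟩
  · field_simp at e
    simpa [map_ofNat, τ0, H0, mul_comm] using e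
  · obtain ⟨k1, k2⟩ := indep hρ (α := c' - c * e ^ 2) (β := -2 * c' - c * e ^ 2 * (4 * n - 2))
      (γ := -c * e ^ 2 * (4 * n ^ 2 - 4 * n)) (mul_left_cancel₀ (pow_ne_zero 2 H0) (by
        simp only [map_sub, map_mul, map_pow, map_neg, map_ofNat, map_natCast]
        field_simp at k
        rw [mul_zero, mul_eq_zero, or_iff_right (pow_ne_zero 2 τ0)] at k
        linear_combination algebraMap C Ω c * k - algebraMap C Ω c' * e1))
    exact mul_ne_zero (mul_ne_zero (show (4 : C) ≠ 0 by norm_num)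
      (Nat.cast_ne_zero.2 (by omega : n ≠ 0))) c0 (by linear_combination -k2 + (4 * n - 2) * k1)

variable [Fintype ι] [DecidableEq ι] {m : Mir k C ι} {A : Matrix (Option ι) (Option ι) C}

lemma edge_step (hm : m.f = quad A) {P : Pc Ω} {h y a : Option ι → Ω} {ζ τ μ ω w : Ω}
    {K : ι ⊕ ι → Ω} (hA : A.IsSymm) (ω0 : ω ≠ 0) (d : Dat P (A.map (algebraMap C Ω)) h y a ζ τ)
    (w0 : w ≠ 0) (n : Near P (A.map (algebraMap C Ω)) h y a ζ τ μ ((ω / w) • hat (pt K w))
      (hat (pos K))) {μ' : Ω}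
    (hμ : μ' = μ + 2 * τ * (h ⬝ᵥ a) / (a ⬝ᵥ A.map (algebraMap C Ω) *ᵥ a))
    (H : ∀ q v, Near P (A.map (algebraMap C Ω)) h y a ζ τ μ' q v → q none ≠ 0) :
    ∃ K' w', St m K w K' ∧ w ≠ w' ∧ w' ≠ 0 ∧
      Near P (A.map (algebraMap C Ω)) h y a ζ τ μ' ((ω / w') • hat (pt K' w')) (hat (pos K')) := by
  have g := H17.Cm.grad_quad hA (pt K w)
  have h0 := n.q0
  have h1 := n.ep d
  have h2 := n.th
  have hs := fun {v'} => n.step d (v' := v')
  have θ0 := mul_ne_zero d.z0 d.τ0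
  rw [show hat (pos K) = hat (pt K w) - w • vec (dir K) by rw [hat_pt, add_sub_cancel_right],
    mulVec_sub, mulVec_smul, dotProduct_sub, dotProduct_smul, symm_dot d.sy _ (vec _), vec_dot,
    dotProduct_comm (dir K)] at h2
  simp only [mulVec_smul, H17.Cm.sp_smul, dotProduct_smul, smul_dotProduct, smul_eq_mul,
    mul_eq_zero, div_eq_zero_iff, ω0, w0, false_or, ne_eq] at h0 h1 h2 hs
  rw [← hm] at g
  generalize sp (A.map (algebraMap C Ω) *ᵥ hat (pt K w)) = N at g h1 h2 hs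
  have h3 : N ⬝ᵥ dir K = -(ζ * τ) / ω := by
    rw [← h2, h0]
    field_simp
    ring
  have st := st_edge (m := m) (l := K) (t := w) (by rw [hm, H17.Cm.aeval_quad, h0])
    (by simp [g, h1]) (by simp [g, h3, d.z0, d.τ0, ω0])
  rw [g, H17.Cm.smul_rf two_ne_zero] at st
  obtain ⟨h4, h5⟩ := hs (v' := hat (pos (edge (pt K w) (rf N (dir K)) w))) (by
    ext (_ | i)
    · simp [hat, H17.Cm.vec]
    · simp only [hat, H17.Cm.vec, pos_edge, rf, pt, h3, Option.elim, Pi.add_apply, Pi.sub_apply,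
        Pi.smul_apply, smul_eq_mul]
      field_simp
      ring)
  rw [← hμ] at h5
  have h6 := H _ _ h5
  have h7 := div_ne_zero (mul_ne_zero two_ne_zero θ0) h4
  generalize 2 * (ζ * τ) / _ = σ at h5 h6 h7
  have h8 : ω / w + σ ≠ 0 := by simpa [hat] using h6
  refine ⟨_, ω / (ω / w + σ), st, fun e => h7 ?_, div_ne_zero ω0 h8, ?_⟩
  · rw [eq_div_iff h8] at e
    field_simp at e
    exact mul_left_cancel₀ w0 (by linear_combination e)
  · rwa [show (ω / (ω / (ω / w + σ))) • hat (pt (edge (pt K w) (rf N (dir K)) w) (ω / (ω / w + σ))) =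
      (ω / w) • hat (pt K w) + σ • hat (pos (edge (pt K w) (rf N (dir K)) w)) by
      rw [div_div_cancel₀ ω0, hat_pt (edge _ _ _), dir_edge]
      generalize pt K w = p
      ext (_ | i)
      · simp [hat, H17.Cm.vec]
      · simp only [hat, H17.Cm.vec, pos_edge, Option.elim, Pi.add_apply, Pi.sub_apply,
          Pi.smul_apply, smul_eq_mul]
        rw [mul_add _ (_ - _), ← mul_assoc, mul_div_cancel₀ _ h8]
        field_simp
        ring]

omit [CharZero Ω] [DecidableEq ι] in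
lemma bf_one (c : C) (A : Matrix (Option ι) (Option ι) C) (g : Option ι → C) (x y : Option ι → Ω) :
    bf (c • A + vecMulVec g g) x y = algebraMap C Ω c * x ⬝ᵥ A.map (algebraMap C Ω) *ᵥ y +
      (algebraMap C Ω ∘ g) ⬝ᵥ x * (algebraMap C Ω ∘ g) ⬝ᵥ y := by
  rw [bf_add, bf_smul, bf_vecMulVec, dotProduct_comm _ x, dotProduct_comm _ y]
  rfl

/-- The orbit of an edge that is tangent to a tangent cone of the mirror never touches again a
quadric that is tangent to the mirror along a hyperplane section. -/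
theorem rank4 [IsAlgClosed C] {m' : Mir k C ι} {B : Matrix (Option ι) (Option ι) C} {c : C}
    {h z : Option ι → C} (hA : A.IsSymm) (hm : m.f = quad A) (c0 : c ≠ 0)
    (hB : B = c • A + vecMulVec h h) (hm' : m'.f = quad B) (hz : B *ᵥ z = 0) (h1 : h ⬝ᵥ z = 1)
    {l l' : ι ⊕ ι → Ω} {u : Ω} (hl : Tl m' l) (st : St m l u l') :
    ∃ (K : ℕ → ι ⊕ ι → Ω) (w : ℕ → Ω), K 0 = l ∧ w 0 = u ∧
      (∀ n, St m (K n) (w n) (K (n + 1)) ∧ w n ≠ w (n + 1)) ∧
      ∀ i, 1 ≤ i → ∀ c' : C, c' ≠ 0 → ∀ g, dsc (c' • A + vecMulVec g g) (K i) ≠ 0 := by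
  obtain ⟨t, T⟩ := exists_tan hl
  have hBs : B.IsSymm := hB ▸ (hA.smul c).add (IsSymm.ext fun i j => mul_comm _ _)
  have gp := T.gen_pos
  have e1 : algebraMap C Ω ∘ z - algebraMap C Ω (z none) • hat (pt l t) =
      vec (sp (algebraMap C Ω ∘ z) - algebraMap C Ω (z none) • pt l t) := by
    ext (_ | i) <;> simp [hat, H17.Cm.vec, sp, Algebra.smul_def]
  have Bz : B.map (algebraMap C Ω) *ᵥ (algebraMap C Ω ∘ z) = 0 := funext fun i => by
    rw [← RingHom.map_mulVec, hz]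
    simp
  obtain ⟨D, D1, D2⟩ := T.free (ξ := 0)
    (η := t⁻¹ • (sp (algebraMap C Ω ∘ z) - algebraMap C Ω (z none) • pt l t)) (by
      rw [zero_add, smul_inv_smul₀ T.ne, hm', grad_dot hBs, ← e1, bf_sub_right, bf_smul_right,
        T.pp hm', bf, Bz]
      simp)
  have cst : ∀ g : Option ι → C, dv D (algebraMap C Ω ∘ g) = 0 := fun g => funext fun i =>
    D.map_algebraMap _
  have hB' : ∀ x, B.map (algebraMap C Ω) *ᵥ x = algebraMap C Ω c • A.map (algebraMap C Ω) *ᵥ x +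
      ((algebraMap C Ω ∘ h) ⬝ᵥ x) • (algebraMap C Ω ∘ h) := fun x => funext fun i => by
    have := bf_one c A h (Pi.single i 1) x
    rw [← hB] at this
    simpa [bf, mul_comm, Algebra.smul_def] using this
  have h1' : (algebraMap C Ω ∘ h) ⬝ᵥ (algebraMap C Ω ∘ z) = 1 := by
    rw [← RingHom.map_dotProduct, h1, map_one]
  have Q0 : hat (pos l) ⬝ᵥ A.map (algebraMap C Ω) *ᵥ hat (pos l) ≠ 0 := fun e =>
    m.prime.ne_zero (gp _ (by rw [hm]; exact (H17.Cm.aeval_quad ..).trans e))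
  have c0' : ∀ {c : C}, c ≠ 0 → algebraMap C Ω c ≠ 0 := fun h => by simpa using h
  obtain ⟨P, s, ζ, τ, μ, ω, k1, s0, ω0, u0, dat, near, eq⟩ := init D (p := hat (pt l t))
    (A := A.map (algebraMap C Ω))
    (d := vec (dir l)) (a := hat (pos l)) (t := t) (u := u) (e := algebraMap C Ω (z none))
    (hA.map _) (c0' c0) (fun i => cst (A i)) (cst h) (cst z) (D.map_algebraMap c)
    (by rwa [hB', h1', one_smul, add_eq_zero_iff_eq_neg] at Bz) h1'
    (by rw [← bf_one, ← hB, T.pp hm']) (by rw [← bf_one, ← hB, T.pu hBs hm'])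
    (by
      have := T.on.nn
      rw [hm', H17.Cm.grad_quad hBs, hB', smul_dotProduct, dotProduct_smul] at this
      exact right_ne_zero_of_mul (right_ne_zero_of_mul this)) (by rw [hat_pt, add_sub_cancel_right])
    (fun e => m'.prime.ne_zero (gp _ (by
      rw [hm']
      exact (aeval_quad ..).trans (by rwa [hB, bf_one])))) Q0
    (by rw [dv_hat, D1]; ext (_ | i) <;> rfl)
    (fun t0 => by rw [dv_vec, D2, H17.Cm.vec_smul, smul_inv_smul₀ t0, e1])
    (by rw [← hat_pt, ← H17.Cm.aeval_quad, ← hm, st.zero]) (by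
      have := st.nu
      rw [hm, grad_dot hA, hat_pt] at this
      exact right_ne_zero_of_mul this)
  rw [← hat_pt] at near
  have kv : ∀ g : Option ι → C, P.V (algebraMap C Ω ∘ g) (algebraMap C Ω ∘ g) := fun g i =>
    k1 _ (D.map_algebraMap _)
  have hh : h ≠ 0 := fun e => by simp [e] at h1
  have par : ∀ g : Option ι → C, (algebraMap C Ω ∘ g) ⬝ᵥ (s • (hat (pt l t) -
      ((algebraMap C Ω ∘ h) ⬝ᵥ hat (pt l t)) • (algebraMap C Ω ∘ z))) = 0 →
      algebraMap C Ω ∘ g = algebraMap C Ω (g ⬝ᵥ z) • (algebraMap C Ω ∘ h) := fun g e => by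
    rw [dotProduct_smul, smul_eq_mul, mul_eq_zero, or_iff_right s0, dotProduct_sub,
      dotProduct_smul, ← RingHom.map_dotProduct] at e
    have := lin_zero T.on (h := g - (g ⬝ᵥ z) • h) (by
      rw [← e, lf, dotProduct_comm, smul_eq_mul, mul_comm, ← smul_eq_mul, ← smul_dotProduct,
        ← sub_dotProduct]
      refine congrArg (· ⬝ᵥ _) (funext fun i => by simp [Algebra.smul_def]))
    ext i
    simpa [sub_eq_zero] using congrArg (algebraMap C Ω) (congrFun this i)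
  have H0 : (algebraMap C Ω ∘ h) ⬝ᵥ hat (pos l) = H42.ev (pos l) (aff h) :=
    (dotProduct_comm _ _).trans (H17.Cm.aeval_aff ..).symm
  have dg : ∀ W : MvPolynomial ι C, W.totalDegree ≤ 1 → m.f ∣ W → W = 0 := fun W a b =>
    by_contra fun e => by
      have := MvPolynomial.totalDegree_le_of_dvd_of_isDomain b e
      have := m.deg
      omega
  have ar := arith dat.τ0 Q0 (fun e => hh (H17.Cm.aff_eq_zero (gp _ (H0 ▸ e)))) (fun s e => by
    have e2 : MvPolynomial.C c * m.f = MvPolynomial.C s * aff h ^ 2 := sub_eq_zero.1 (gp _ (by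
      rw [map_sub, map_mul, map_mul, map_pow, ← H0, hm, sub_eq_zero]
      simpa [H42.ev, H17.Cm.aeval_quad] using e))
    rcases m.prime.dvd_or_dvd (e2 ▸ dvd_mul_left m.f _) with e3 | e3
    · rw [dg _ (by simp) e3, zero_mul] at e2
      exact mul_ne_zero (by simpa using c0) m.prime.ne_zero e2
    · exact hh (H17.Cm.aff_eq_zero (dg _ (H17.Cm.td_aff_le h) (m.prime.dvd_of_dvd_pow e3)))) eq
  obtain ⟨f, f0, hf⟩ := dc (a := (l, u)) (r := fun x x' => St m x.1 x.2 x'.1 ∧ x.2 ≠ x'.2)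
    (p := fun n x => x.2 ≠ 0 ∧ Near P (A.map (algebraMap C Ω)) _ _ (hat (pos l)) ζ τ
      (μ + n * (2 * τ * ((algebraMap C Ω ∘ h) ⬝ᵥ hat (pos l)) /
        (hat (pos l) ⬝ᵥ A.map (algebraMap C Ω) *ᵥ hat (pos l))))
      ((ω / x.2) • hat (pt x.1 x.2)) (hat (pos x.1))) ⟨u0, by simpa using near⟩
    fun n x hx => by
      obtain ⟨K', w', a1, a2, a3, a4⟩ := edge_step hm hA ω0 dat hx.1 hx.2
        (by rw [add_assoc, ← add_one_mul, ← Nat.cast_succ]) fun q v hq => by
          have e0 : algebraMap C Ω ∘ (Pi.single none 1 : Option ι → C) = Pi.single none 1 := by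
            ext (_ | i) <;> simp
          simpa [e0] using hq.lin (ar (n + 1)).1 (kv (Pi.single none 1)) fun e =>
            ⟨_, fun e' => by
              have := par _ e
              rw [e'] at this
              simpa using congrFun this none, par _ e⟩
      exact ⟨(K', w'), ⟨a3, a4⟩, a1, a2⟩
  refine ⟨fun n => (f n).1, fun n => (f n).2, congrArg Prod.fst f0, congrArg Prod.snd f0,
    fun n => (hf n).2, fun i hi c' c1 g e => ?_⟩
  obtain ⟨w0, hn⟩ := (hf i).1
  refine hn.dsc dat (k1 _ (D.map_algebraMap c')) (c0' c1) (kv g) (fun e =>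
    ⟨_, k1 _ (D.map_algebraMap _), par g e, (ar i).2 c' _ hi c1⟩) ?_
  have hs : (c' • A + vecMulVec g g).IsSymm := (hA.smul c').add (IsSymm.ext fun i j => mul_comm _ _)
  simp only [← bf_one, hat_pt, bf_smul_left, bf_smul_right, bf_add_left, bf_add_right,
    bf_comm hs (vec _) (hat _)]
  rw [dsc] at e
  field_simp
  linear_combination ω ^ 2 * (f i).2 ^ 2 * e

end Pool.Agent.MP_249f74_an.H42.S2
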