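import Pool.Agent.MP_249f74_an.H42.Sys
import Pool.Agent.MP_249f74_an.H96A.Ch
import Pool.Agent.MP_249f74_an.H96A.Grp

/-!
Elementary facts on chains.
-/

namespace Pool.Agent.MP_249f74_an.H42

open H96A (Fx Inv Full sg Pl grp mem_Fx_one)
open scoped Classical

variable {C Ω κ : Type} [Field C] [Field Ω] [Algebra C Ω]
variable {L : ℤ → κ → Ω} {t : ℤ → Ω} {a b a' b' e i : ℤ} {σ τ : Ω ≃ₐ[C] Ω} {l l' : κ → Ω}

lemma mem_FL : σ ∈ FL C l ↔ mp σ l = l :=
  ⟨fun h => funext fun i => h _ ⟨i, rfl⟩, fun h _ ⟨i, e⟩ => e ▸ congrFun h i⟩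

lemma mem_Hg : σ ∈ Hg C L t a b ↔
    (∀ i, a ≤ i → i ≤ b → σ ∈ FL C (L i)) ∧ ∀ i, a ≤ i → i < b → σ (t i) = t i := Iff.rfl

lemma ev_mp (l : κ → Ω) (σ : Ω ≃ₐ[C] Ω) (F : MvPolynomial κ C) : ev (mp σ l) F = σ (ev l F) := by
  have : ev (mp σ l) = (σ : Ω →ₐ[C] Ω).comp (ev l) := by
    ext i; simp [ev, mp]
  rw [this]; rfl

lemma inv_ev (l : κ → Ω) (F : MvPolynomial κ C) : Inv (FL C l) (ev l F) := fun σ h => by
  rw [← ev_mp, mem_FL.1 h]

lemma mp_mul (l : κ → Ω) : mp (σ * τ) l = mp σ (mp τ l) := rfl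

lemma mp_inv (l : κ → Ω) : mp σ⁻¹ (mp σ l) = l := funext fun _ => σ.symm_apply_apply _

lemma mp_inv' (l : κ → Ω) : mp σ (mp σ⁻¹ l) = l := funext fun _ => σ.apply_symm_apply _

lemma Gen.mp (h : Gen C l) (σ : Ω ≃ₐ[C] Ω) : Gen C (mp σ l) := fun F hF =>
  h F (by rwa [ev_mp, map_eq_zero] at hF)

lemma Cur.mp (h : Cur C l) (σ : Ω ≃ₐ[C] Ω) : Cur C (mp σ l) :=
  h.imp fun _ h => ⟨h.1, fun F => by rw [ev_mp, map_eq_zero, h.2]⟩

lemma hg_self : Hg C L t a a = FL C (L a) := by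
  ext σ
  rw [mem_Hg]
  exact ⟨fun h => h.1 a le_rfl le_rfl, fun h => ⟨fun i h1 h2 => by rwa [h2.antisymm h1],
    fun i h1 h2 => absurd h1 h2.not_ge⟩⟩

lemma hg_mono (ha : a ≤ a') (hb : b' ≤ b) : Hg C L t a b ≤ Hg C L t a' b' := fun _ h =>
  ⟨fun i h1 h2 => h.1 i (ha.trans h1) (h2.trans hb), fun i h1 h2 => h.2 i (ha.trans h1)
    (h2.trans_le hb)⟩

lemma hg_fl (h1 : a ≤ i) (h2 : i ≤ b) : Hg C L t a b ≤ FL C (L i) := fun _ h => h.1 i h1 h2

lemma exists_step (p : ℤ → Prop) (b j : ℤ) (hbj : b ≤ j) (hb : ¬p b) (hj : p j) :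
    ∃ i, b ≤ i ∧ i < j ∧ ¬p i ∧ p (i + 1) := by
  induction j, hbj using Int.leInduction with
  | base => exact absurd hj hb
  | succ n hn ih =>
    by_cases hn' : p n
    · obtain ⟨i, h1, h2, h3⟩ := ih hn'
      exact ⟨i, h1, by omega, h3⟩
    · exact ⟨n, hn, by omega, hn', hj⟩

lemma sg_sq (σ : Ω ≃ₐ[C] Ω) (P : Finset Ω) : ((sg σ P : ℤ) : Ω) * ((sg σ P : ℤ) : Ω) = 1 := by
  rcases Int.units_eq_one_or (sg σ P) with h | h <;> simp [h]

omit [Field Ω] in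
lemma other {P : Finset Ω} (hP : P.card ≤ 2) {x y z : Ω} (hx : x ∈ P) (hy : y ∈ P) (hz : z ∈ P)
    (h1 : x ≠ y) (h2 : z ≠ x) : z = y :=
  by_contra fun h => absurd (Finset.two_lt_card.2 ⟨x, hx, y, hy, z, hz, h1, h2.symm, Ne.symm h⟩)
    (not_lt.2 hP)

/-- Reversal for mirrors and vertices. -/
abbrev rm {α : Type} (m : ℤ → α) (i : ℤ) : α := m (-1 - i)

/-- Reversal for edges. -/
abbrev rl {α : Type} (L : ℤ → α) (i : ℤ) : α := L (-i)

lemma hg_rev : Hg C (rl L) (rm t) (-b) (-a) = Hg C L t a b := by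
  ext σ
  simp only [mem_Hg, rl, rm]
  exact ⟨fun h => ⟨fun i h1 h2 => by simpa using h.1 (-i) (by omega) (by omega),
    fun i h1 h2 => by simpa using h.2 (-1 - i) (by omega) (by omega)⟩,
    fun h => ⟨fun i h1 h2 => h.1 _ (by omega) (by omega),
      fun i h1 h2 => h.2 _ (by omega) (by omega)⟩⟩

namespace Sys

variable {S : Sys C Ω κ} {m : ℤ → S.M} {J : Finset S.M}

lemma R_mp (J : Finset S.M) (l : κ → Ω) (σ : Ω ≃ₐ[C] Ω) : S.R J (mp σ l) = σ (S.R J l) := by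
  simp [R, ev_mp]

lemma inv_R (J : Finset S.M) (l : κ → Ω) : Inv (FL C l) (S.R J l) := fun σ h => by
  rw [← R_mp, mem_FL.1 h]

lemma R_eq (J : Finset S.M) (l : κ → Ω) : S.R J l = ev l (∏ T ∈ J, S.Δ T) := by simp [R]

lemma Sec.ne (h : S.Sec) (hl : Gen C l) (T : S.M) : ev l (S.Δ T) ≠ 0 := fun e =>
  (h.sqf T).ne_zero (hl _ e)

lemma Sec.R0 (h : S.Sec) (hl : Gen C l) (J : Finset S.M) : S.R J l ≠ 0 :=
  Finset.prod_ne_zero_iff.2 fun T _ => h.ne hl T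

lemma Red.mono (h : S.Red m a b) (ha : a ≤ a') (hb : b' ≤ b) : S.Red m a' b' :=
  fun i j h1 h2 h3 => h i j (ha.trans h1) h2 (h3.trans_le hb)

lemma exists_run (m : ℤ → S.M) (h : a < e) : ∃ b, S.Run m a b e := by
  obtain ⟨b, ⟨h1, h2, h3⟩, h4⟩ := Int.exists_least_of_bdd
    (P := fun b => a ≤ b ∧ b < e ∧ ∀ i, b ≤ i → i < e → m i = m (e - 1)) ⟨a, fun z hz => hz.1⟩
    ⟨e - 1, by omega, by omega, fun i h1 h2 => by rw [show i = e - 1 by omega]⟩
  refine ⟨b, h1, h2, h3, fun h5 h6 => ?_⟩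
  have := h4 (b - 1) ⟨by omega, by omega, fun i h7 h8 => by
    rcases h7.eq_or_lt with rfl | h9
    exacts [h6, h3 i (by omega) h8]⟩
  omega

lemma Run.mono (h : S.Run m a b e) (h1 : a ≤ a') (h2 : a' ≤ b) (h3 : b < i) (h4 : i ≤ e) :
    S.Run m a' b i :=
  have e1 := h.eq (i - 1) (by omega) (by omega)
  ⟨h2, h3, fun j k1 k2 => (h.eq j k1 (by omega)).trans e1.symm, fun k => e1 ▸ h.ne (by omega)⟩

lemma Bas.fix (h : S.Bas) {μ : S.M} {y : Ω} (s : S.St μ l y l') (h1 : σ ∈ FL C l) (h2 : σ y = y) :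
    σ ∈ FL C l' := by
  have := h.map _ _ _ _ σ s
  rw [mem_FL.1 h1, h2] at this
  exact mem_FL.2 (h.det _ _ _ _ _ this s)

lemma Bas.mem' (h : S.Bas) {μ : S.M} {y : Ω} (s : S.St μ l y l') : y ∈ S.Pts μ l' :=
  h.mem _ _ _ _ (h.symm _ _ _ _ s)

namespace Chn

lemma mono (h : S.Chn m L t a b) (ha : a ≤ a') (hb : b' ≤ b) : S.Chn m L t a' b' :=
  ⟨fun i h1 h2 => h.st i (ha.trans h1) (h2.trans_le hb),
    fun i h1 h2 => h.nb i (ha.trans h1) (h2.trans_le hb)⟩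

lemma nil (m : ℤ → S.M) (L : ℤ → κ → Ω) (t : ℤ → Ω) (a : ℤ) : S.Chn m L t a a :=
  ⟨fun _ h1 h2 => absurd h1 h2.not_ge, fun _ h1 h2 => by omega⟩

lemma ind (hB : S.Bas) (h : S.Chn m L t a b) {p : (κ → Ω) → Prop}
    (hp : ∀ i l y l', a ≤ i → i < b → S.St (m i) l y l' → p l → p l') {j : ℤ} (h0 : p (L j))
    (k1 : a ≤ j) (k2 : j ≤ b) (h1 : a ≤ i) (h2 : i ≤ b) : p (L i) := by
  rcases le_total j i with c | c
  · induction i, c using Int.leInduction with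
    | base => exact h0
    | succ i c ih =>
      exact hp i _ _ _ (by omega) (by omega) (h.st i (by omega) (by omega))
        (ih (by omega) (by omega))
  · induction i, c using Int.leInductionDown with
    | base => exact h0
    | pred i c ih =>
      have := hB.symm _ _ _ _ (h.st (i - 1) h1 (by omega))
      rw [sub_add_cancel] at this
      exact hp _ _ _ _ h1 (by omega) this (ih (by omega) (by omega))

lemma gen (hB : S.Bas) (h : S.Chn m L t a b) {j : ℤ} (h0 : Gen C (L j)) (k1 : a ≤ j) (k2 : j ≤ b)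
    (h1 : a ≤ i) (h2 : i ≤ b) : Gen C (L i) :=
  h.ind hB (fun _ _ _ _ _ _ => hB.gen _ _ _ _) h0 k1 k2 h1 h2

lemma cur (hB : S.Bas) (h : S.Chn m L t a b) {j : ℤ} (h0 : Cur C (L j)) (k1 : a ≤ j) (k2 : j ≤ b)
    (h1 : a ≤ i) (h2 : i ≤ b) : Cur C (L i) :=
  h.ind hB (fun _ _ _ _ _ _ => hB.cur _ _ _ _) h0 k1 k2 h1 h2

lemma map (hB : S.Bas) (h : S.Chn m L t a b) (σ : Ω ≃ₐ[C] Ω) :
    S.Chn m (fun i => mp σ (L i)) (fun i => σ (t i)) a b :=
  ⟨fun i h1 h3 => hB.map _ _ _ _ σ (h.st i h1 h3), fun i h1 h3 e => h.nb i h1 h3 (σ.injective e)⟩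

lemma st' (h : S.Chn m L t a b) (h1 : a < i) (h2 : i ≤ b) :
    S.St (m (i - 1)) (L (i - 1)) (t (i - 1)) (L i) := by
  simpa using h.st (i - 1) (by omega) (by omega)

lemma nb' (h : S.Chn m L t a b) (h1 : a < i) (h2 : i < b) : t i ≠ t (i - 1) := by
  simpa using (h.nb (i - 1) (by omega) (by omega)).symm

lemma hg_right (hB : S.Bas) (h : S.Chn m L t a (b + 1)) (hab : a ≤ b) :
    Hg C L t a (b + 1) = Hg C L t a b ⊓ Fx C {t b} := by
  refine le_antisymm (le_inf (hg_mono le_rfl (by omega)) fun σ hσ =>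
    mem_Fx_one.2 (hσ.2 b hab (by omega))) fun σ ⟨h3, h4⟩ => ⟨fun i h5 h6 => ?_, fun i h5 h6 => ?_⟩
  · rcases h6.eq_or_lt with rfl | h7
    · exact hB.fix (h.st b hab (by omega)) (hg_fl hab le_rfl h3) (mem_Fx_one.1 h4)
    · exact hg_fl h5 (by omega) h3
  · rcases (show i ≤ b by omega).eq_or_lt with rfl | h7
    exacts [mem_Fx_one.1 h4, h3.2 _ h5 h7]

lemma hg_left (hB : S.Bas) (h : S.Chn m L t a b) (hab : a < b) :
    Hg C L t a b = Hg C L t (a + 1) b ⊓ Fx C {t a} := by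
  refine le_antisymm (le_inf (hg_mono (by omega) le_rfl) fun σ hσ =>
    mem_Fx_one.2 (hσ.2 a le_rfl hab)) fun σ ⟨h3, h4⟩ => ⟨fun i h5 h6 => ?_, fun i h5 h6 => ?_⟩
  · rcases h5.eq_or_lt with rfl | h7
    · exact hB.fix (hB.symm _ _ _ _ (h.st a le_rfl hab)) (hg_fl le_rfl hab h3) (mem_Fx_one.1 h4)
    · exact hg_fl h7 h6 h3
  · rcases h5.eq_or_lt with rfl | h7
    exacts [mem_Fx_one.1 h4, h3.2 _ h7 h6]

lemma mem_fr (hB : S.Bas) (h : S.Chn m L t a (b + 1)) (hab : a ≤ b) : t b ∈ S.Fr m L t a b := by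
  have := hB.mem _ _ _ _ (h.st b hab (by omega))
  unfold Fr
  split_ifs with h3
  · exact Finset.mem_erase.2 ⟨h.nb' h3 (by omega), this⟩
  · exact this

lemma mem_fl (hB : S.Bas) (h : S.Chn m L t a b) (hab : a < b) : t a ∈ S.Fl m L t (a + 1) b := by
  have := hB.mem' (h.st a le_rfl hab)
  unfold Fl
  rw [add_sub_cancel_right]
  split_ifs with h3
  · exact Finset.mem_erase.2 ⟨h.nb a le_rfl h3, this⟩
  · exact this

/-- At the beginning of a run all the points of the section are free. -/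
lemma fr_eq (hB : S.Bas) (h : S.Chn m L t a b) (hg : Gen C (L b))
    (hm : a < b → m (b - 1) ≠ m b) : S.Fr m L t a b = S.Pts (m b) (L b) := by
  unfold Fr; split_ifs with h3
  · exact Finset.erase_eq_of_notMem fun e =>
      hm h3 (hB.dis _ _ _ _ hg (hB.mem' (h.st' h3 le_rfl)) e)
  · rfl

lemma fl_eq (hB : S.Bas) (h : S.Chn m L t a b) (hg : Gen C (L a))
    (hm : a < b → m a ≠ m (a - 1)) : S.Fl m L t a b = S.Pts (m (a - 1)) (L a) := by
  unfold Fl; split_ifs with h3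
  · exact Finset.erase_eq_of_notMem fun e =>
      hm h3 (hB.dis _ _ _ _ hg (hB.mem _ _ _ _ (h.st a le_rfl h3)) e)
  · rfl

/-- Inside a run one point is lost. -/
lemma card_fr (hB : S.Bas) (h : S.Chn m L t a b) (hab : a < b) (hm : m (b - 1) = m b) :
    (S.Fr m L t a b).card + 1 = (S.Pts (m b) (L b)).card := by
  rw [Fr, if_pos hab, Finset.card_erase_add_one (hm ▸ hB.mem' (h.st' hab le_rfl))]

lemma rev (hB : S.Bas) (h : S.Chn m L t a b) : S.Chn (rm m) (rl L) (rm t) (-b) (-a) := by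
  refine ⟨fun i h1 h3 => ?_, fun i h1 h3 => ?_⟩
  · have := hB.symm _ _ _ _ (h.st (-1 - i) (by omega) (by omega))
    rwa [show -1 - i + 1 = -i by ring, show L (-1 - i) = rl L (i + 1) by
      rw [rl, show -(i + 1) = -1 - i by ring]] at this
  · have := (h.nb (-1 - (i + 1)) (by omega) (by omega)).symm
    rwa [show -1 - (i + 1) + 1 = -1 - i by ring] at this

lemma shift (h : S.Chn m L t a b) (s : ℤ) :
    S.Chn (fun i => m (i + s)) (fun i => L (i + s)) (fun i => t (i + s)) (a - s) (b - s) :=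
  ⟨fun i h1 h3 => by
    have := h.st (i + s) (by omega) (by omega)
    rwa [add_right_comm] at this, fun i h1 h3 => by
    have := h.nb (i + s) (by omega) (by omega)
    rwa [add_right_comm] at this⟩

lemma congr {m' : ℤ → S.M} (h : S.Chn m L t a b) (e : ∀ i, a ≤ i → i < b → m' i = m i) :
    S.Chn m' L t a b := ⟨fun i h1 h3 => e i h1 h3 ▸ h.st i h1 h3, h.nb⟩

/-- Two chains in one quadric with the same beginning are equal. -/
lemma uniq (hB : S.Bas) {μ : S.M} (hq : S.Qd μ) {L' : ℤ → κ → Ω} {t' : ℤ → Ω}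
    (h : S.Chn (fun _ => μ) L t a b) (h' : S.Chn (fun _ => μ) L' t' a b) (e1 : L' a = L a)
    (e2 : t' a = t a) (h1 : a ≤ i) : (i ≤ b → L' i = L i) ∧ (i < b → t' i = t i) := by
  induction i, h1 using Int.leInduction with
  | base => exact ⟨fun _ => e1, fun _ => e2⟩
  | succ i hi ih =>
    have e3 : i + 1 ≤ b → L' (i + 1) = L (i + 1) := fun k => by
      have s := h'.st i hi k
      rw [ih.1 (by omega), ih.2 k] at s
      exact hB.det _ _ _ _ _ s (h.st i hi k)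
    refine ⟨e3, fun k => other (hB.two μ (L (i + 1)) hq) (hB.mem' (h.st i hi k.le))
      (hB.mem _ _ _ _ (h.st _ (by omega) k)) (e3 k.le ▸ hB.mem _ _ _ _ (h'.st _ (by omega) k))
      (h.nb i hi k) ?_⟩
    rw [← ih.2 k.le]
    exact (h'.nb i hi k).symm

/-- On a quadric the first vertex determines the chain. -/
lemma fix (hB : S.Bas) {μ : S.M} (hq : S.Qd μ) (h : S.Chn (fun _ => μ) L t a b)
    (k1 : σ ∈ FL C (L a)) (k2 : σ (t a) = t a) : σ ∈ Hg C L t a b :=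
  ⟨fun _ h1 h2 => mem_FL.2 ((uniq hB hq h (h.map hB σ) (mem_FL.1 k1) k2 h1).1 h2),
    fun _ h1 h2 => (uniq hB hq h (h.map hB σ) (mem_FL.1 k1) k2 h1).2 h2⟩

/-- Two chains that leave an edge at different points. -/
lemma glue (hB : S.Bas) {μ : S.M} {L' : ℤ → κ → Ω} {t' : ℤ → Ω}
    (h : S.Chn (fun _ => μ) L t b e) (h' : S.Chn (fun _ => μ) L' t' b e) (hbe : b < e)
    (e1 : L' b = L b) (e2 : t' b ≠ t b) : ∃ K s, S.Chn (fun _ => μ) K s (-(e - b)) (e - b) ∧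
      K (-(e - b)) = L' e ∧ K 0 = L b ∧ K (e - b) = L e := by
  obtain ⟨K, K1, K2⟩ : ∃ K : ℤ → κ → Ω, (∀ i, i ≤ 0 → K i = L' (b - i)) ∧
      ∀ i, 0 ≤ i → K i = L (b + i) := by
    refine ⟨fun i => if i ≤ 0 then L' (b - i) else L (b + i), fun i k => if_pos k, fun i k => ?_⟩
    rcases k.eq_or_lt with rfl | k
    · simp [e1]
    · exact if_neg k.not_ge
  obtain ⟨s, s1, s2⟩ : ∃ s : ℤ → Ω, (∀ i, i < 0 → s i = t' (b - (i + 1))) ∧
      ∀ i, 0 ≤ i → s i = t (b + i) :=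
    ⟨fun i => if i < 0 then t' (b - (i + 1)) else t (b + i), fun i k => if_pos k,
      fun i k => if_neg k.not_gt⟩
  refine ⟨K, s, ⟨fun i k1 k2 => ?_, fun i k1 k2 => ?_⟩, by rw [K1 _ (by omega)]; congr 1; ring,
    by rw [K2 _ le_rfl, add_zero], by rw [K2 _ (by omega)]; congr 1; ring⟩
  · rcases lt_or_ge i 0 with c | c
    · have := hB.symm _ _ _ _ (h'.st (b - (i + 1)) (by omega) (by omega))
      rwa [show b - (i + 1) + 1 = b - i by ring, ← K1 i c.le, ← s1 i c, ← K1 (i + 1) c] at this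
    · have := h.st (b + i) (by omega) (by omega)
      rwa [add_assoc, ← K2 i c, ← s2 i c, ← K2 (i + 1) (by omega)] at this
  · rcases lt_trichotomy (i + 1) 0 with c | c | c
    · have := h'.nb (b - (i + 1 + 1)) (by omega) (by omega)
      rw [show b - (i + 1 + 1) + 1 = b - (i + 1) by ring] at this
      rw [s1 i (by omega), s1 _ c]
      exact this.symm
    · rw [s1 i (by omega), s2 _ c.ge, c, sub_zero, add_zero]
      exact e2
    · have := h.nb (b + i) (by omega) (by omega)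
      rwa [add_assoc, ← s2 i (by omega), ← s2 _ c.le] at this

end Chn

lemma fr_sub : S.Fr m L t a b ⊆ S.Pts (m b) (L b) := by
  unfold Fr; split_ifs
  exacts [Finset.erase_subset _ _, le_rfl]

lemma fr_stb (hB : S.Bas) (hab : a ≤ b) (hσ : σ ∈ Hg C L t a b) {y : Ω}
    (hy : y ∈ S.Fr m L t a b) : σ y ∈ S.Fr m L t a b := by
  have := hB.stb _ _ _ (hg_fl hab le_rfl hσ) _ (fr_sub hy)
  unfold Fr at hy ⊢
  split_ifs at hy ⊢ with h3
  · exact Finset.mem_erase.2 ⟨fun e => (Finset.mem_erase.1 hy).1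
      (σ.injective (e.trans (hσ.2 _ (by omega) (by omega)).symm)), this⟩
  · exact this

lemma sg_fr (hσ : σ ∈ Hg C L t a b) : sg σ (S.Fr m L t a b) = sg σ (S.Pts (m b) (L b)) := by
  unfold Fr; split_ifs with h
  exacts [grp.erase σ _ _ (hσ.2 _ (by omega) (by omega)), rfl]

lemma sg_fl (hσ : σ ∈ Hg C L t a b) :
    sg σ (S.Fl m L t a b) = sg σ (S.Pts (m (a - 1)) (L a)) := by
  unfold Fl; split_ifs with h
  exacts [grp.erase σ _ _ (hσ.2 _ le_rfl h), rfl]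

lemma Red.rev (h : S.Red m a b) : S.Red (rm m) (-b) (-a) := fun i j h1 h2 h3 e hc => by
  have := h (-1 - j) (-1 - i) (by omega) (by omega) (by omega) e.symm fun k h5 h6 => by
    have := hc (-1 - k) (by omega) (by omega)
    rwa [e, rm, rm, show -1 - (-1 - k) = k by ring] at this
  omega

lemma fr_rev : S.Fr (rm m) (rl L) (rm t) (-b) (-a) = S.Fl m L t a b := by
  simp only [Fr, Fl, rm, rl, neg_neg, neg_lt_neg_iff, show -1 - -a = a - 1 by ring,
    show -1 - (-a - 1) = a by ring]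

lemma fl_rev : S.Fl (rm m) (rl L) (rm t) (-b) (-a) = S.Fr m L t a b := by
  simp only [Fr, Fl, rm, rl, neg_neg, neg_lt_neg_iff, show -1 - -b = b - 1 by ring,
    show -1 - (-b - 1) = b by ring]

lemma FR_rev : S.FR (rm m) (rl L) (rm t) (-b) (-a) ↔ S.FF m L t a b := by
  rw [FR, FF, hg_rev, fr_rev]

lemma FF_rev : S.FF (rm m) (rl L) (rm t) (-b) (-a) ↔ S.FR m L t a b := by
  rw [FR, FF, hg_rev, fl_rev]

/-- Chains in one quadric are free. -/
lemma Chn.fr_qd (hB : S.Bas) (hS : S.Sec) {μ : S.M} (hq : S.Qd μ)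
    (h : S.Chn (fun _ => μ) L t a b) (g : Gen C (L a)) (h1 : a ≤ b) :
    S.FR (fun _ => μ) L t a b := by
  rcases h1.eq_or_lt with rfl | h2
  · rw [FR, Fr, if_neg (lt_irrefl a), hg_self]
    exact hS.full _ _ g
  · refine grp.small _ _ (fun σ hσ y hy => fr_stb hB h1 hσ hy) ?_
    have := h.card_fr hB h2 rfl
    have := hB.two μ (L b) hq
    omega

end Sys

end Pool.Agent.MP_249f74_an.H42
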