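import Pool.Agent.MP_249f74_an.H42.Walk

/-!
The induction on the length of a chain.
-/

namespace Pool.Agent.MP_249f74_an.H42.Sys

open H96A (Fx Inv Full sg Pl grp mv mem_Fx_one)

variable {C Ω κ : Type} [Field C] [Field Ω] [IsAlgClosed Ω] [Algebra C Ω] {S : Sys C Ω κ}

variable (S) in
/-- The statements for a chain. -/
structure All (m : ℤ → S.M) (L : ℤ → κ → Ω) (t : ℤ → Ω) (a b : ℤ) : Prop where
  fr : S.Red m a (b + 1) → S.FR m L t a b
  ff : S.Red m (a - 1) b → S.FF m L t a b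
  g2 : S.Red m a b → S.G2 m L t a b
  g1 : S.Red m a b → S.G1 m L t a b
  nl : S.Red m (a - 1) (b + 1) → S.NL m L t a b

theorem all (hB : S.Bas) (hS : S.Sec) (hP : S.PASS) (hI : S.IND) (hBR : S.BR) (hQ : S.QUAD)
    (n : ℕ) : ∀ m L t (a b : ℤ), a ≤ b → b < a + n → S.Chn m L t a b → Gen C (L a) →
      S.All m L t a b := by
  induction n with
  | zero => intro m L t a b h1 h2; omega
  | succ n ih =>
    have sub : ∀ {m L t} {a b : ℤ}, b < a + (n + 1 : ℕ) → S.Chn m L t a b → Gen C (L a) →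
        ∀ i j, a ≤ i → i ≤ j → j ≤ b → a < i ∨ j < b → S.All m L t i j := fun h2 hc hg i j k1 k2 k3 k4 =>
      ih _ _ _ i j k2 (by omega) (hc.mono k1 k3) (hc.gen hB hg le_rfl (by omega) k1 (by omega))
    have fr : ∀ m L t (a b : ℤ), a ≤ b → b < a + (n + 1 : ℕ) → S.Chn m L t a b → Gen C (L a) →
        S.Red m a (b + 1) → S.FR m L t a b := fun m L t a b h1 h2 hc hg hd => by
      rcases h1.eq_or_lt with rfl | h1
      · rw [FR, Fr, if_neg (lt_irrefl a), hg_self]
        exact hS.full _ _ hg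
      · have := sub h2 hc hg (a + 1) b (by omega) h1 le_rfl (by omega)
        exact free hB h1 hc hg (this.ff (hd.mono (by omega) (by omega)))
          (this.fr (hd.mono (by omega) le_rfl)) (this.nl (hd.mono (by omega) le_rfl))
    intro m L t a e h1 h2 hc hg
    have hs := sub h2 hc hg
    have cr := hc.rev hB
    have gr : Gen C (rl L (-e)) := by
      simpa only [rl, neg_neg] using hc.gen hB hg le_rfl h1 h1 le_rfl
    have g2 : S.Red m a e → S.G2 m L t a e := fun hd b x r J hr hR => by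
      have hab := hr.ab
      have hbe := hr.be
      have hF : ∀ i j, a ≤ i → i ≤ j → j < e → S.FR m L t i j := fun i j k1 k2 k3 =>
        (hs i j k1 k2 k3.le (.inr k3)).fr (hd.mono k1 k3)
      by_cases q : S.Qd (m (e - 1))
      · exact con hB hS hQ hc hg hd hr (hF a b le_rfl hab hbe)
          ((hs a b le_rfl hab hbe.le (.inr hbe)).g1 (hd.mono le_rfl hbe.le)) hR q
      · exact fun T hT => .inl (run hB hS hBR (b - a).toNat a e x r J (by omega) hc hg hr hF
          (fun i j k1 k2 k3 => (hs i j k1.le k2 k3 (.inl k1)).ff (hd.mono (by omega) k3))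
          (fun i j k1 k2 k3 => (hs i j k1.le k2 k3.le (.inl k1)).nl (hd.mono (by omega) k3)) hR q
          T hT)
    refine ⟨fr m L t a e h1 h2 hc hg, fun hd => FR_rev.1 (fr _ _ _ _ _ (by omega) (by omega) cr gr
      (hd.rev.mono le_rfl (by omega))), g2, fun hd x r x0 hx hr e1 => ?_, fun hd => link hB hS hP hI
        hc hg h1 hd (fun j k1 k2 => ?_) fun i k1 k2 =>
          (hs a i le_rfl k1 k2.le (.inr k2)).fr (hd.mono (by omega) (by omega))⟩
    · have hs' := sub (show -a < -e + (n + 1 : ℕ) by omega) cr gr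
      obtain ⟨J, w, w1, w2, w3⟩ := g1' hB hS hP cr gr (by omega) hd.rev (fun j k1 k2 =>
        (hs' _ j le_rfl k1.le k2.le (.inr k2)).g2 (hd.rev.mono le_rfl k2.le)) (fun i k1 k2 =>
        (hs' _ i le_rfl k1 k2.le (.inr k2)).fr (hd.rev.mono le_rfl k2)) x0
        (by simpa only [rl, neg_neg] using hx) (by rwa [hg_rev]) e1
      simp only [rl, neg_neg] at w1 w2
      refine ⟨J, w, w1, w2, fun T hT => ?_⟩
      obtain ⟨q, p, p1, p2, p3, p4⟩ := w3 T hT
      refine ⟨q, -1 - p, by omega, by omega, p3, fun k k1 k2 => ?_⟩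
      have := p4 (-1 - k) (by omega) (by omega)
      rwa [rm, show -1 - (-1 - k) = k by ring] at this
    · rcases k2.eq_or_lt with rfl | k2
      · exact g2 (hd.mono (by omega) (by omega))
      · exact (hs a j le_rfl k1.le k2.le (.inr k2)).g2 (hd.mono (by omega) (by omega))

theorem fin' (hB : S.Bas) (hS : S.Sec) (hP : S.PASS) (hI : S.IND) (hBR : S.BR) (hQ : S.QUAD)
    (hE : S.END) : S.FIN := by
  intro m L t a e hae hc hg hd h
  have hF : ∀ i, a ≤ i → i < e → S.FR m L t a i := fun i k1 k2 =>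
    (all hB hS hP hI hBR hQ (e - a).toNat m L t a i k1 (by omega) (hc.mono le_rfl k2.le) hg).fr
      (hd.mono le_rfl k2)
  obtain ⟨b, τ, h1, h2, h3, h4, h5, h6⟩ : ∃ b τ, a ≤ b ∧ b < e ∧
      (∀ i, b ≤ i → i < e → m i = m (e - 1)) ∧ (e - b = 1 ∨ S.Qd (m (e - 1))) ∧
      τ ∈ Hg C L t a b ∧ τ (t b) ≠ t b := by
    obtain ⟨b, hb⟩ := exists_run m hae
    have hab := hb.ab
    have hbe := hb.be
    by_cases q : S.Qd (m (e - 1)) ∨ b = e - 1
    · obtain ⟨τ, t1, t2⟩ := exists_move hB hc hg hb (hF b hab hbe)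
      exact ⟨b, τ, hab, hbe, hb.eq, q.symm.imp_left fun k => by omega, t1, t2⟩
    · push Not at q
      have g := hc.gen hB hg le_rfl hae.le (show a ≤ e - 1 by omega) (by omega)
      have k1 := (hc.mono le_rfl (show e - 1 ≤ e by omega)).card_fr hB (by omega)
        (hb.eq _ (by omega) (by omega))
      have k2 := hB.card (m (e - 1)) _ g
      have k3 := mt (hB.qd _ _ g) q.1
      obtain ⟨y, y1, y2⟩ := Finset.exists_mem_ne (s := S.Fr m L t a (e - 1)) (by omega) (t (e - 1))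
      obtain ⟨τ, t1, t2⟩ := grp.trans _ _ _ _ (hF (e - 1) (by omega) (by omega))
        ((hc.mono le_rfl (by omega)).mem_fr hB (by omega)) y1
      exact ⟨e - 1, τ, by omega, by omega, fun i k1 k2 => by rw [show i = e - 1 by omega],
        .inl (by omega), t1, t2 ▸ y2⟩
  have c0 : S.Chn (fun _ => m (e - 1)) L t b e :=
    (hc.mono h1 le_rfl).congr fun i k1 k2 => (h3 i k1 k2).symm
  obtain ⟨K, s, k1, k2, k3, k4⟩ := c0.glue hB (c0.map hB τ) h2 (mem_FL.1 (hg_fl h1 le_rfl h5)) h6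
  exact hE _ K s (e - b) (by omega) h4 k1 (k3 ▸ hc.gen hB hg le_rfl hae.le h1 h2.le)
    (k2 ▸ k4 ▸ h τ (hg_fl le_rfl h1 h5))

end Pool.Agent.MP_249f74_an.H42.Sys
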