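import Pool.Agent.MP_249f74_an.H42.Ind
import Pool.Agent.MP_249f74_an.H42.Par

/-!
Relations over a run of one mirror; the main theorem on abstract systems.
-/

namespace Pool.Agent.MP_249f74_an.H42.Sys

open H96A (Fx Inv Full sg Pl grp mem_Fx_one)
open scoped Classical

variable {C Ω κ : Type} [Field C] [Field Ω] [Algebra C Ω] {S : Sys C Ω κ}

variable (S) in
/-- The statement on finite classes for one mirror. -/
def CL (m : S.M) : Prop :=
  ∀ m' (G : MvPolynomial κ C) k, G ≠ 0 → S.Tl m' k → ev k G = 0 →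
    (∀ l t l', S.St m l t l' → Cur C l → ev l G = 0 → ev l' G = 0) →
    S.Cm m m' ∨ (m' = m ∧ S.Qd m)

lemma Sec.odd (hS : S.Sec) {J : Finset S.M} {T : S.M} (hT : T ∈ J) {k : κ → Ω} (hk : S.Tl T k) :
    ∃ Ψ A : MvPolynomial κ C, Squarefree Ψ ∧ A ≠ 0 ∧ ev k Ψ = 0 ∧
      ∀ l, S.R J l = ev l Ψ * ev l A ^ 2 := by
  obtain ⟨Ψ, A, h1, h2, h3, h4⟩ := H42.odd (Φ := ∏ U ∈ J.erase T, S.Δ U) (hS.cur _ _ hk) (hS.sqf T)
    (hS.own _ _ hk) (by
      rw [map_prod]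
      exact Finset.prod_ne_zero_iff.2 fun U hU => hS.oth _ _ _ hk (Finset.ne_of_mem_erase hU))
  exact ⟨Ψ, A, h1, h2, h4, fun l => by
    rw [R_eq, ← Finset.mul_prod_erase _ _ hT, h3, map_mul, map_pow]⟩

variable [IsAlgClosed C] [IsAlgClosed Ω] [CharZero Ω]

theorem ind (hf : Sf C Ω κ) (hB : S.Bas) (hL : S.LIFT) (hS : S.Sec) : S.IND := by
  intro J l r hl hr e
  refine Finset.eq_empty_of_forall_notMem fun T hT => ?_
  obtain ⟨k, hk⟩ := hS.ex T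
  obtain ⟨Ψ, A, h1, h2, h3, h4⟩ := hS.odd hT hk
  have h5 : ev l A ≠ 0 := fun c => h2 (hl _ c)
  refine par hf hB hL (Φ := 1) (Φ' := 1) (r := r / ev l A) le_rfl le_rfl
    (Chn.nil (fun _ => T) (fun _ => l) (fun _ => 0) 0) hl (fun i k1 k2 => by omega)
    (Chn.nil _ (fun _ => k) (fun _ => 0) 0) (hS.cur _ _ hk) h1 h3 (by simp) (by simp) ?_ ?_
  · rw [div_pow, e, h4]
    field_simp
    simp
  · rw [hg_self]
    exact hr.div (inv_ev _ _)

variable [Finite κ]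

theorem br_at (hf : Sf C Ω κ) (hB : S.Bas) (hL : S.LIFT) (hS : S.Sec) {m : ℤ → S.M}
    {L : ℤ → κ → Ω} {t : ℤ → Ω} {b e : ℤ} {x r : Ω} {J : Finset S.M} (hC : S.CL (m (e - 1)))
    (hc : S.Chn m L t b e) (hg : Gen C (L b)) (hrun : S.Run m b b e)
    (hFR : ∀ i, b ≤ i → i < e → S.FR m L t b i) (hFF : ∀ i, b < i → i ≤ e → S.FF m L t i e)
    (hrel : S.Rel L t b b e x r J) :
    ∀ T ∈ J, S.Cm (m (e - 1)) T ∨ (T = m (e - 1) ∧ S.Qd T) := by
  intro T hT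
  by_contra hcon
  have hbe := hrun.be
  have ge := hc.gen hB hg le_rfl hbe.le hbe.le le_rfl
  obtain ⟨k, hk⟩ := hS.ex T
  obtain ⟨Ψ, A, h1, h2, h3, h4⟩ := hS.odd hT hk
  have h5 : ev (L e) A ≠ 0 := fun c => h2 (ge _ c)
  obtain ⟨Φ, w, hΦ, hw0, hw, hx⟩ := sqf hf hg hrel.x0 (by simpa only [hg_self] using hrel.hx)
  have hr0 : (r / (w * ev (L e) A)) ^ 2 = ev (L b) Φ * ev (L e) Ψ := by
    rw [div_pow, hrel.sq, hx, h4]; field_simp
  have hinv : Inv (Hg C L t b e) (r / (w * ev (L e) A)) := hrel.hr.div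
    ((hw.mono (hg_fl le_rfl hbe.le)).mul ((inv_ev _ _).mono (hg_fl hbe.le le_rfl)))
  have geo' := fun {a b : ℤ} => geo hB (μ := m (e - 1)) (a := a) (b := b)
    (mul_ne_zero hΦ.ne_zero h1.ne_zero) (hS.cur _ _ hk) (by rw [map_mul, h3, mul_zero])
    fun G g1 g2 g3 => hcon ((hC T G k g1 hk g2 g3).imp_right fun ⟨c, d⟩ => ⟨c, c ▸ d⟩)
  obtain ⟨K, u, hK, hcur, hz, hnz⟩ := geo' hbe
  rw [map_mul] at hz hnz
  rcases mul_eq_zero.1 hz with h0 | h0
  · exact par hf hB hL (Φ := 1) le_rfl hbe.le hc hg hFR (hK.congr hrun.eq) hcur hΦ h0 (by simp)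
      (right_ne_zero_of_mul hnz) (by rw [hr0, map_one, mul_one]) hinv
  · refine par hf hB hL (Φ := 1) (Φ' := Φ) (Ψ := Ψ) (K := fun i => K (i + (b + e)))
      (u := fun i => u (i + (b + e))) le_rfl (by omega) (hc.rev hB)
      (by simpa only [rl, neg_neg] using ge) (fun i k1 k2 => ?_)
      (((hK.shift (b + e)).mono (by omega) (by omega)).congr fun i k1 k2 =>
        hrun.eq _ (by omega) (by omega)) (by simpa using hcur) h1 (by simpa using h0) (by simp)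
      (by simpa using left_ne_zero_of_mul hnz) ?_ (by rwa [hg_rev])
    · simpa using FR_rev.2 (hFF (-i) (by omega) (by omega))
    · simp only [rl, neg_neg, map_one, mul_one]
      rw [hr0, mul_comm]

theorem br (hf : Sf C Ω κ) (hB : S.Bas) (hL : S.LIFT) (hS : S.Sec) (hC : S.CLASS) : S.BR :=
  fun _ _ _ _ _ _ _ _ => br_at hf hB hL hS (hC _)

omit [Finite κ] in
/-- The tangent complex of a commuting quadric is invariant. -/
lemma stay (hf : Sf C Ω κ) (hB : S.Bas) (hL : S.LIFT) (hS : S.Sec) (hP : S.PASS) {μ Q : S.M}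
    (hq : S.Qd μ) (hQ : S.Qd Q) (hc : S.Cm μ Q) {L K : ℤ → κ → Ω} {t u : ℤ → Ω} {n : ℤ}
    (hn : 0 ≤ n) (h1 : S.Chn (fun _ => μ) L t 0 n) (hg : Gen C (L 0))
    (h2 : S.Chn (fun _ => μ) K u 0 n) (hk : S.Tl Q (K 0)) : S.Tl Q (K n) := by
  have c := hS.cur _ _ hk
  refine hS.tq _ _ hQ (h2.cur hB c le_rfl hn hn le_rfl) (by_contra fun h => ?_)
  obtain ⟨z, z1, z2⟩ := move hS hg (h1.gen hB hg le_rfl hn hn le_rfl) (hg_fl le_rfl hn)
    (hg_fl hn le_rfl) {Q} fun T hT σ hσ => sg_pass hB hP h1 hg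
      (fun _ _ _ => Finset.mem_singleton.1 hT ▸ hc) hσ hn le_rfl
  exact par hf hB hL (Φ := 1) le_rfl hn h1 hg (fun i k1 k2 =>
    (h1.mono le_rfl k2.le).fr_qd hB hS hq hg k1) h2 c (hS.sqf Q) (hS.own _ _ hk) (by simp) h
    (by simpa [R] using z2) z1

theorem quad' (hf : Sf C Ω κ) (hB : S.Bas) (hL : S.LIFT) (hS : S.Sec) (hP : S.PASS)
    (hC : ∀ m, S.Qd m → S.CL m) (hT : S.SPLIT) : S.QUAD := by
  intro μ L t n r J J' hn hq hc hg hJ hJ' hQ hr e T hT'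
  by_contra hcon
  obtain ⟨k, hk⟩ := hS.ex T
  obtain ⟨Ψ, A, h1, h2, h3, h4⟩ := hS.odd hT' hk
  have g0 := hc.gen hB hg (by omega) hn.le le_rfl (by omega)
  have g1 := hc.gen hB hg (by omega) hn.le (by omega) le_rfl
  have rev : ∀ {K u}, S.Chn (fun _ => μ) K u (-n) n → S.Chn (fun _ => μ) (rl K) (rm u) 0 n :=
    fun h => (h.rev hB).mono (by omega) (by omega)
  have key : ∀ K u, S.Chn (fun _ => μ) K u (-n) n → Cur C (K (-n)) → ev (K (-n)) Ψ = 0 →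
      ev (K n) Ψ ≠ 0 → ∃ Q ∈ J', S.Tl Q (K 0) ∧ ¬S.Cm μ Q ∧ Inv (FL C (K 0)) (u 0) ∧
        Inv (FL C (K 0)) (u (-1)) := fun K u k1 k2 k3 k4 => by
    have k5 : ev (K 0) (∏ Q ∈ J', S.Δ Q) = 0 := by_contra fun c => par hf hB hL
      (r := r / (ev (L (-n)) A * ev (L n) A)) (by omega) hn.le hc g0 (fun i j1 j2 =>
        (hc.mono le_rfl j2.le).fr_qd hB hS hq g0 j1) k1 k2 h1 k3 c k4 (by
          have a0 : ev (L (-n)) A ≠ 0 := fun c => h2 (g0 _ c)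
          have a1 : ev (L n) A ≠ 0 := fun c => h2 (g1 _ c)
          rw [div_pow, e, h4, h4, R_eq]
          field_simp) ((hr.mono (hg_fl (by omega) hn.le)).div
        (((inv_ev _ _).mono (hg_fl le_rfl (by omega))).mul
          ((inv_ev _ _).mono (hg_fl (by omega) le_rfl))))
    rw [map_prod, Finset.prod_eq_zero_iff] at k5
    obtain ⟨Q, q1, q2⟩ := k5
    have q3 := hS.tq _ _ (hQ Q q1) (k1.cur hB k2 le_rfl (by omega) (by omega) hn.le) q2
    have c0 := k1.mono (show -n ≤ 0 by omega) le_rfl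
    have y0 := hB.mem _ _ _ _ (c0.st 0 le_rfl hn)
    have y1 : u (-1) ∈ S.Pts μ (K 0) := hB.mem' (k1.st (-1) (by omega) (by omega))
    have y2 : u (-1) ≠ u 0 := k1.nb (-1) (by omega) hn
    have q4 : Inv (FL C (K 0)) (u 0) := fun ρ hρ => by_contra fun c => by
      have := ((rev k1).uniq hB hq (c0.map hB ρ) (mem_FL.1 hρ) (other (hB.two μ _ hq) y0 y1
        (hB.stb _ _ ρ hρ _ y0) y2.symm c) hn.le).1 le_rfl
      rw [rl] at this
      rw [← this, ev_mp, map_eq_zero] at k3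
      exact k4 k3
    exact ⟨Q, q1, q3, fun c => k4 (hS.tid Q _ _
      (stay hf hB hL hS hP hq (hQ Q q1) c hn.le (rev hc) hg (rev k1) q3)
      (stay hf hB hL hS hP hq (hQ Q q1) c hn.le (hc.mono (by omega) le_rfl) hg c0 q3) Ψ k3), q4,
      fun ρ hρ => other (hB.two μ _ hq) y0 y1 (hB.stb _ _ ρ hρ _ y1) y2.symm fun c =>
        y2 (ρ.injective (c.trans (q4 ρ hρ).symm))⟩
  obtain ⟨K, u, k1, k2, k3, k4⟩ := geo hB (μ := μ) h1.ne_zero (hS.cur _ _ hk) h3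
    (fun G g1 g2 g3 => (hC _ hq T G k g1 hk g2 g3).elim hcon fun c => hJ (c.1 ▸ hT'))
    (show -n < n by omega)
  obtain ⟨Q, q1, q2, q3, -, q4⟩ := key K u k1 k2 k3 k4
  obtain ⟨K', w, w1, w2, w3, w4, w5⟩ := hT μ Q _ _ _ hq (hQ Q q1) (fun c => hJ' (c ▸ q1)) q3 q2
    ((rev k1).st 0 le_rfl hn) q4
  obtain ⟨N, hN⟩ := w4 Ψ h1.ne_zero
  obtain ⟨j, ⟨j1, j2⟩, j3⟩ := Int.exists_greatest_of_bdd (P := fun j => n ≤ j ∧ ev (K' j) Ψ = 0)
    ⟨N, fun j hj => by_contra fun c => hN j (by omega) hj.2⟩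
    ⟨n, le_rfl, by rwa [((rev k1).uniq hB hq (w3 n) w1 w2 hn.le).1 le_rfl]⟩
  obtain ⟨Q', r1, r2, -, r3, -⟩ := key (fun i => K' (i + (j + n))) (fun i => w (i + (j + n)))
    (((w3 (j + 2 * n)).shift (j + n)).mono (by omega) (by omega))
    ((w3 j).cur hB (w1 ▸ hS.cur _ _ q2) le_rfl (by omega) (by omega) (by omega))
    (by simpa using j2) fun c => by have := j3 _ ⟨by omega, c⟩; omega
  exact w5 _ Q' (by omega) (hQ _ r1) (fun c => hJ' (c ▸ r1)) r2 r3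

theorem quad (hf : Sf C Ω κ) (hB : S.Bas) (hL : S.LIFT) (hS : S.Sec) (hP : S.PASS) (hC : S.CLASS)
    (hT : S.SPLIT) : S.QUAD := quad' hf hB hL hS hP (fun m _ => hC m) hT

/-- A reduced chain does not close up; finite classes are only used for quadrics. -/
theorem fin0 (hf : Sf C Ω κ) (hB : S.Bas) (hL : S.LIFT) (hS : S.Sec) (hP : S.PASS) (hBR : S.BR)
    (hC : ∀ m, S.Qd m → S.CL m) (hT : S.SPLIT) (hE : S.END) : S.FIN :=
  fin' hB hS hP (ind hf hB hL hS) hBR (quad' hf hB hL hS hP hC hT) hE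

/-- A reduced chain does not close up. -/
theorem fin (hf : Sf C Ω κ) (hB : S.Bas) (hL : S.LIFT) (hS : S.Sec) (hP : S.PASS) (hC : S.CLASS)
    (hT : S.SPLIT) (hE : S.END) : S.FIN :=
  fin' hB hS hP (ind hf hB hL hS) (br hf hB hL hS hC) (quad hf hB hL hS hP hC hT) hE

end Pool.Agent.MP_249f74_an.H42.Sys
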