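import Pool.Agent.MP_249f74_an.H42.Ch
import Pool.Agent.MP_249f74_an.H96A.Run
import Pool.Agent.MP_249f74_an.H96A.Mv
import Pool.Agent.MP_249f74_an.H96A.Conic

/-!
Relations at the end of a chain.
-/

namespace Pool.Agent.MP_249f74_an.H42.Sys

open H96A (Fx Inv Full sg Pl grp mv mem_Fx_one)
open H96A.RUN (full_real inv_conj)
open scoped Classical

variable {C Ω κ : Type} [Field C] [Field Ω] [IsAlgClosed Ω] [Algebra C Ω]
variable {S : Sys C Ω κ} {m : ℤ → S.M} {L : ℤ → κ → Ω} {t : ℤ → Ω} {a b e : ℤ}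

/-- A root that changes by the sign of a section. -/
lemma Sec.root (hS : S.Sec) {l : κ → Ω} (hl : Gen C l) (T : S.M) {H : Subgroup (Ω ≃ₐ[C] Ω)}
    (hH : H ≤ FL C l) {u : Ω} (hu : ∀ σ ∈ H, σ u = ((sg σ (S.Pts T l) : ℤ) : Ω) * u) :
    ∃ w, Inv H w ∧ w ^ 2 = u ^ 2 * ev l (S.Δ T) := by
  obtain ⟨ρ, hρ⟩ := IsAlgClosed.exists_pow_nat_eq (ev l (S.Δ T)) two_pos
  refine ⟨u * ρ, fun σ hσ => ?_, by rw [mul_pow, hρ]⟩
  rw [map_mul, hu σ hσ, hS.sgn T l hl σ (hH hσ) ρ hρ]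
  linear_combination u * ρ * sg_sq σ (S.Pts T l)

omit [IsAlgClosed Ω] in
/-- The first step in which an element with an invariant square becomes invariant. -/
lemma first (hB : S.Bas) (hc : S.Chn m L t a e) {b j : ℤ} (hab : a ≤ b)
    (hbj : b ≤ j) (hje : j ≤ e) (N : Subgroup (Ω ≃ₐ[C] Ω))
    (hF : ∀ i, b ≤ i → i < j → Full (Hg C L t a i ⊓ N) (S.Fr m L t a i)) {u : Ω}
    (h1 : Inv (Hg C L t a j ⊓ N) u) (h2 : Inv (Hg C L t a b ⊓ N) (u ^ 2))
    (h3 : ¬Inv (Hg C L t a b ⊓ N) u) : ∃ i, b ≤ i ∧ i < j ∧ (S.Fr m L t a i).card = 2 ∧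
      ∀ σ ∈ Hg C L t a i ⊓ N, σ u = ((sg σ (S.Pts (m i) (L i)) : ℤ) : Ω) * u := by
  obtain ⟨i, hbi, hij, hni, hi1⟩ := exists_step (fun i => Inv (Hg C L t a i ⊓ N) u) b j hbj h3 h1
  have hc' := hc.mono le_rfl (show i + 1 ≤ e by omega)
  obtain ⟨hcard, hsg⟩ := grp.quad _ _ (t i) u (hF i hbi hij) (hc'.mem_fr hB (by omega))
    (fun σ hσ => hi1 σ ⟨by rw [hc'.hg_right hB (by omega)]; exact ⟨hσ.1.1, hσ.2⟩, hσ.1.2⟩)
    (h2.mono (inf_le_inf_right _ (hg_mono le_rfl hbi))) hni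
  exact ⟨i, hbi, hij, hcard, fun σ hσ => by rw [hsg σ hσ, sg_fr hσ.1]⟩

omit [IsAlgClosed Ω] in
/-- The free points on the left do not depend on the right end inside the last run. -/
lemma fl_run (hB : S.Bas) (hc : S.Chn m L t a e) (hg : Gen C (L a)) (hr : S.Run m a b e)
    (hab : a < b) {j : ℤ} (hj : b ≤ j) : S.Fl m L t (a + 1) j = S.Fl m L t (a + 1) e := by
  have hbe := hr.be
  by_cases h : a + 1 < j
  · rw [Fl, Fl, if_pos h, if_pos (by omega)]
  · rw [Fl, if_neg h, (hc.mono (by omega) le_rfl).fl_eq hB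
      (hc.gen hB hg le_rfl (by omega) (by omega) (by omega)) fun _ k => hr.ne hab ?_]
    rw [show b = a + 1 by omega, ← k]
    exact hr.eq _ (by omega) (by omega)

lemma run_step (hB : S.Bas) (hS : S.Sec) (hc : S.Chn m L t a e) (hg : Gen C (L a))
    (hr : S.Run m a b e) (hab : a < b)
    (hFR : ∀ i j, a ≤ i → i ≤ j → j < e → S.FR m L t i j)
    (hFF : ∀ i j, a < i → i ≤ j → j ≤ e → S.FF m L t i j)
    (hNL : ∀ i j, a < i → i ≤ j → j < e → S.NL m L t i j) (hn : ¬S.Qd (m (e - 1)))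
    (ih : ∀ j x r J, b < j → j ≤ e → S.Rel L t (a + 1) b j x r J → ∀ T ∈ J, S.Cm (m (e - 1)) T)
    (n : ℕ) : ∀ j J x r, j ≤ b + n → b < j → j ≤ e → x ≠ 0 →
      Inv (Hg C L t (a + 1) b ⊓ Fx C (S.Fl m L t (a + 1) e)) x →
      Inv (Hg C L t (a + 1) j ⊓ Fx C (S.Fl m L t (a + 1) e)) r → r ^ 2 = x * S.R J (L j) →
      ∀ T ∈ J, S.Cm (m (e - 1)) T := by
  have hbe := hr.be
  have hgen : ∀ i, a ≤ i → i ≤ e → Gen C (L i) := fun i => hc.gen hB hg le_rfl (by omega)
  have hc1 := hc.mono (show a ≤ a + 1 by omega) le_rfl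
  have hfull : ∀ j, b ≤ j → j ≤ e → Full (Hg C L t (a + 1) j) (S.Fl m L t (a + 1) e) :=
    fun j hj hj' => fl_run hB hc hg hr hab hj ▸ hFF (a + 1) j (by omega) (by omega) hj'
  induction n with
  | zero => intro j J x r h h'; omega
  | succ n ihn =>
    intro j J x r hjn hbj hje hx0 hx hrr hsq
    have hψ := hS.R0 (hgen j (by omega) hje) J
    have hr0 : r ≠ 0 := fun k => mul_ne_zero hx0 hψ (by rw [← hsq, k]; simp)
    have hle : Hg C L t (a + 1) j ≤ Hg C L t (a + 1) b := hg_mono le_rfl hbj.le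
    have hψi : Inv (Hg C L t (a + 1) j) (S.R J (L j)) := (inv_R J _).mono (hg_fl (by omega) le_rfl)
    have hb := (hfull b le_rfl hbe.le).stb
    by_cases hall : ∀ τ ∈ Hg C L t (a + 1) j,
        Inv (Hg C L t (a + 1) b ⊓ Fx C (S.Fl m L t (a + 1) e)) (τ r / r)
    · obtain ⟨x', r', hr', hsq', hx', hri⟩ := mv _ _ _ x _ r hle hb
        (fun σ hσ => full_real (hfull j hbj.le hje) σ (hb σ hσ)) hr0 hsq hx hψi hrr hall
      exact ih j x' r' J hbj hje ⟨fun k => hr' (by simpa [k] using hsq'), hx', hri, hsq'⟩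
    · push Not at hall
      obtain ⟨τ, hτ, hnu⟩ := hall
      have hub : Inv (Hg C L t (a + 1) b ⊓ Fx C (S.Fl m L t (a + 1) e)) ((τ r / r) ^ 2) := by
        rw [div_pow, ← map_pow, hsq, map_mul, hψi τ hτ, mul_div_mul_right _ _ hψ]
        exact (inv_conj hb (hle hτ) hx).div hx
      obtain ⟨i, hbi, hij, hcard, hsg⟩ := first hB hc1 hab hbj.le hje
        _ (fun i hbi hij => grp.drop _ _ _ (hfull i hbi (by omega))
          (hFR (a + 1) i (by omega) (by omega) (by omega)) fun hcard => by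
            obtain ⟨σ, hσ, hne⟩ := hNL (a + 1) i (by omega) (by omega) (by omega) (by
              by_cases h : a + 1 < i
              · exact Or.inl h
              · rw [show a + 1 = b by omega, hr.eq i hbi (by omega)]
                exact Or.inr (hr.ne hab)) hcard
            exact ⟨σ, hσ, by rwa [← fl_run hB hc hg hr hab hbi, sg_fl hσ, sg_fr hσ]⟩)
        ((inv_conj (hfull j hbj.le hje).stb hτ hrr).div hrr) hub hnu
      have hm := hr.eq i hbi (by omega)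
      rcases hbi.eq_or_lt with rfl | hbi'
      · rw [(hc1.mono le_rfl hbe.le).fr_eq hB (hgen b hab.le hbe.le) fun _ => hm ▸ hr.ne hab]
          at hcard
        exact absurd (hm ▸ hB.qd _ _ (hgen b hab.le hbe.le) hcard) hn
      · obtain ⟨w, h1, h2⟩ := hS.root (hgen i (by omega) (by omega)) (m i)
          (inf_le_left.trans (hg_fl (by omega) le_rfl)) hsg
        exact absurd (hm ▸ ihn i {m i} _ w (by omega) hbi' (by omega)
          (pow_ne_zero 2 (div_ne_zero ((map_ne_zero τ).2 hr0) hr0)) hub h1 (by simpa [R] using h2)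
          _ (Finset.mem_singleton_self _)) (hB.ci _)

/-- The last mirror is not a quadric. -/
theorem run (hB : S.Bas) (hS : S.Sec) (hBR : S.BR) (n : ℕ) : ∀ a e x r J, b = a + n →
    S.Chn m L t a e → Gen C (L a) → S.Run m a b e →
    (∀ i j, a ≤ i → i ≤ j → j < e → S.FR m L t i j) →
    (∀ i j, a < i → i ≤ j → j ≤ e → S.FF m L t i j) →
    (∀ i j, a < i → i ≤ j → j < e → S.NL m L t i j) → S.Rel L t a b e x r J →
    ¬S.Qd (m (e - 1)) → ∀ T ∈ J, S.Cm (m (e - 1)) T := by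
  induction n with
  | zero =>
    intro a e x r J hb hc hg hr hFR hFF _ hrel hn T hT
    obtain rfl : b = a := by simpa using hb
    exact (hBR m L t b e x r J hc hg hr (fun i h h' => hFR b i le_rfl h h')
      (fun i h h' => hFF i e h h' le_rfl) hrel T hT).resolve_right fun k => hn (k.1 ▸ k.2)
  | succ n ih =>
    intro a e x r J hb hc hg hr hFR hFF hNL hrel hn
    have hab : a < b := by omega
    have hbe := hr.be
    have hy := hc.mem_fl hB (hab.trans hbe)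
    have key : ∀ j, b ≤ j → j ≤ e →
        Hg C L t (a + 1) j ⊓ Fx C (S.Fl m L t (a + 1) e) ≤ Hg C L t a j := fun j h h' σ hσ => by
      rw [(hc.mono le_rfl h').hg_left hB (by omega)]
      exact ⟨hσ.1, mem_Fx_one.2 (hσ.2 _ hy)⟩
    refine run_step hB hS hc hg hr hab hFR hFF hNL hn (fun j x' r' J' hbj hje hrel' => ?_)
      (e - b).toNat e J x r (by omega) hbe le_rfl hrel.x0 (hrel.hx.mono (key b le_rfl hbe.le))
      (hrel.hr.mono (key e hbe.le le_rfl)) hrel.sq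
    have hm := hr.eq (j - 1) (by omega) (by omega)
    rw [← hm] at hn ⊢
    exact ih (a + 1) j x' r' J' (by omega) (hc.mono (by omega) hje)
      (hc.gen hB hg le_rfl (by omega) (by omega) (by omega)) (hr.mono (by omega) hab hbj hje)
      (fun i s h h' h'' => hFR i s (by omega) h' (by omega))
      (fun i s h h' h'' => hFF i s (by omega) h' (by omega))
      (fun i s h h' h'' => hNL i s (by omega) h' (by omega)) hrel' hn

omit [IsAlgClosed Ω] in
/-- An automorphism that moves the first vertex of the last run. -/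
lemma exists_move (hB : S.Bas) (hc : S.Chn m L t a e) (hg : Gen C (L a)) (hr : S.Run m a b e)
    (hf : S.FR m L t a b) : ∃ τ ∈ Hg C L t a b, τ (t b) ≠ t b := by
  have hab := hr.ab
  have hbe := hr.be
  have gb := hc.gen hB hg le_rfl (by omega) hab hbe.le
  rw [FR, (hc.mono le_rfl hbe.le).fr_eq hB gb fun k => hr.eq b le_rfl hbe ▸ hr.ne k] at hf
  obtain ⟨y, y1, y2⟩ := Finset.exists_mem_ne (hB.card (m b) _ gb) (t b)
  obtain ⟨τ, t1, t2⟩ := grp.trans _ _ _ _ hf (hB.mem _ _ _ _ (hc.st b hab hbe)) y1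
  exact ⟨τ, t1, t2 ▸ y2⟩

/-- The last mirror is a quadric. -/
theorem con (hB : S.Bas) (hS : S.Sec) (hQ : S.QUAD) {x r : Ω} {J : Finset S.M}
    (hc : S.Chn m L t a e) (hg : Gen C (L a)) (hd : S.Red m a e) (hr : S.Run m a b e)
    (hf : S.FR m L t a b) (h1 : S.G1 m L t a b) (hR : S.Rel L t a b e x r J)
    (hq : S.Qd (m (e - 1))) : ∀ T ∈ J, S.Cm (m (e - 1)) T ∨ (T = m (e - 1) ∧ S.Qd T) := by
  have hab := hr.ab
  have hbe := hr.be
  obtain ⟨τ, t1, t3⟩ := exists_move hB hc hg hr hf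
  have gb := hc.gen hB hg le_rfl (by omega) hab hbe.le
  have ge := hc.gen hB hg le_rfl (by omega) (hab.trans hbe.le) le_rfl
  have hm := hr.eq
  have hne := hr.ne
  have c0 : S.Chn (fun _ => m (e - 1)) L t b e :=
    (hc.mono hab le_rfl).congr fun i k1 k2 => (hm i k1 k2).symm
  have y0 := hB.mem' (c0.st' hbe le_rfl)
  generalize m (e - 1) = μ at hq hm hne c0 y0
  obtain ⟨r', r1, r2⟩ : ∃ r', Inv (Hg C L t a e) r' ∧ r' ^ 2 = x * S.R (J.erase μ) (L e) := by
    by_cases k : μ ∈ J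
    · obtain ⟨w, w1, w2⟩ := hS.root ge μ (hg_fl (hab.trans hbe.le) le_rfl) (u := r) fun σ hσ => by
        rw [hR.hr σ hσ, grp.one σ _ fun y hy => ?_]
        · simp
        have k0 := hσ.2 (e - 1) (by omega) (by omega)
        by_cases c : t (e - 1) = y
        · exact c ▸ k0
        · exact other (hB.two μ _ hq) y0 hy (hB.stb _ _ σ (hσ.1 e (by omega) le_rfl) _ hy) c
            fun k1 => c (σ.injective (k0.trans k1.symm))
      refine ⟨w / ev (L e) (S.Δ μ), w1.div ((inv_ev _ _).mono (hg_fl (by omega) le_rfl)), ?_⟩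
      have := hS.ne ge μ
      rw [div_pow, w2, hR.sq, R, ← Finset.mul_prod_erase _ _ k, R]
      field_simp
    · exact ⟨r, hR.hr, by rw [Finset.erase_eq_of_notMem k, hR.sq]⟩
  have y1 := hB.mem _ _ _ _ (c0.st b le_rfl hbe)
  have hP := hB.two μ (L b) hq
  have hH : Hg C L t a b ≤ FL C (L b) := hg_fl hab le_rfl
  have i1 : Inv (Hg C L t a b) (r' * τ r') :=
    H96A.ConR.inv_norm hP (fun σ hσ => hB.stb _ _ σ (hH hσ)) t1 y1 t3 fun σ hσ k =>
      have := c0.fix hB hq (hH hσ) k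
      r1 σ ⟨fun i k1 k2 => (le_total i b).elim (hσ.1 i k1) fun k3 => this.1 i k3 k2,
        fun i k1 k2 => (lt_or_ge i b).elim (hσ.2 i k1) fun k3 => this.2 i k3 k2⟩
  have i2 : Inv (FL C (L b)) (S.R (J.erase μ) (L e) * τ (S.R (J.erase μ) (L e))) :=
    H96A.ConR.inv_norm hP (hB.stb _ _) (hH t1) y1 t3 fun σ hσ k =>
      inv_R _ _ σ ((c0.fix hB hq hσ k).1 e hbe.le le_rfl)
  have p0 := hS.R0 ge (J.erase μ)
  obtain ⟨J', w, w1, w2, w3⟩ := h1 _ (r' * τ r' / x) (mul_ne_zero p0 ((map_ne_zero τ).2 p0)) i2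
    (i1.div hR.hx) (by
      have := hR.x0
      rw [div_pow, mul_pow, ← map_pow, r2, map_mul, hR.hx τ t1]
      field_simp)
  obtain ⟨K, s, k1, k2, k3, k4⟩ := c0.glue hB (c0.map hB τ) hbe (mem_FL.1 (hH t1)) t3
  intro T hT
  by_cases c : T = μ
  · exact Or.inr ⟨c, c ▸ hq⟩
  refine Or.inl (hQ μ K s (e - b) w (J.erase μ) J' (by omega) hq k1 (k3 ▸ gb)
    (Finset.notMem_erase _ _) (fun k => ?_) (fun T k => (w3 T k).1) (k3 ▸ w1) ?_ T
    (Finset.mem_erase.2 ⟨c, hT⟩))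
  · obtain ⟨-, p, p1, p2, p3, p4⟩ := w3 μ k
    have := hd p b p1 p2 hbe (p3.trans (hm b le_rfl hbe).symm) (p3 ▸ p4)
    exact hne (by omega) (by rw [← p3, this, add_sub_cancel_right])
  · rw [k2, k3, k4, R_mp, w2]
    ring

end Pool.Agent.MP_249f74_an.H42.Sys
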