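import Pool.Agent.MP_249f74_an.H17.CmConf

/-!
The place of a derivation; the billiard in a quadric near a grazing chord.
-/

open Matrix

namespace Pool.Agent.MP_249f74_an.H42.S2

open H17.Cm (hat vec sp vec_dot symm_dot)

variable {C Ω ι : Type} [Field C] [Field Ω] [Algebra C Ω]

variable (Ω) in
/-- Specializations. -/
structure Pc where
  /-- the relation -/
  s : Ω → Ω → Prop
  one : s 1 1
  add : ∀ {a b a' b'}, s a b → s a' b' → s (a + a') (b + b')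
  mul : ∀ {a b a' b'}, s a b → s a' b' → s (a * a') (b * b')
  neg : ∀ {a b}, s a b → s (-a) (-b)
  inv : ∀ {a b}, s a b → b ≠ 0 → s a⁻¹ b⁻¹
  nz : ∀ {b}, s 0 b → b = 0

/-- The constants of a derivation. -/
def ker (D : Derivation C Ω Ω) : Subfield Ω where
  carrier := {x | D x = 0}
  mul_mem' := fun {a b} (h : D a = 0) (k : D b = 0) => show D (a * b) = 0 by simp [h, k]
  one_mem' := D.map_one_eq_zero
  add_mem' := fun {a b} (h : D a = 0) (k : D b = 0) => show D (a + b) = 0 by simp [h, k]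
  zero_mem' := map_zero D
  neg_mem' := fun {a} (h : D a = 0) => show D (-a) = 0 by simp [h]
  inv_mem' := fun a (h : D a = 0) => show D a⁻¹ = 0 by simp [Derivation.leibniz_inv, h]

lemma trans_ker [CharZero Ω] (D : Derivation C Ω Ω) {z : Ω} (h : D z ≠ 0) :
    Transcendental (ker D) z := fun ha => by
  let E : Derivation (ker D) Ω Ω := Derivation.mk'
    { toFun := D
      map_add' := map_add D
      map_smul' := fun a x => by
        have : D a = 0 := a.2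
        simp [Subfield.smul_def, this] } fun a b => D.leibniz a b
  have h1 := E.map_aeval (minpoly (ker D) z) z
  rw [minpoly.aeval, map_zero, smul_eq_mul] at h1
  exact mul_ne_zero ((minpoly.irreducible ha.isIntegral).separable.aeval_derivative_ne_zero
    (minpoly.aeval _ _)) h h1.symm

lemma exists_pc [CharZero Ω] (D : Derivation C Ω Ω) {z : Ω} (h : D z ≠ 0) :
    ∃ P : Pc Ω, (∀ x, D x = 0 → P.s x x) ∧ P.s z 0 := by
  let A := (Algebra.adjoin (ker D) {z}).toSubring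
  have hzA : z ∈ A := Algebra.subset_adjoin rfl
  have hI : Ideal.span {(⟨z, hzA⟩ : A)} ≠ ⊤ := by
    rw [Ne, Ideal.span_singleton_eq_top, isUnit_iff_exists_inv]
    rintro ⟨⟨y, hy⟩, h1⟩
    have h2 : z * y = 1 := congrArg Subtype.val h1
    have hy' : y ∈ Algebra.adjoin (ker D) {z} := hy
    rw [Algebra.adjoin_singleton_eq_range_aeval] at hy'
    obtain ⟨q, rfl⟩ := hy'
    refine trans_ker D h ⟨Polynomial.X * q - 1, fun h0 => ?_, ?_⟩
    · simpa using congrArg (Polynomial.eval 0) h0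
    · rw [map_sub, map_mul, Polynomial.aeval_X, map_one, sub_eq_zero]
      exact h2
  obtain ⟨V, h1, h2⟩ := Ideal.image_subset_nonunits_valuationSubring _ hI
  have k1 : ∀ x ∈ ker D, V.valuation x ≤ 1 := fun x hx => (V.valuation_le_one_iff x).2
    (h1 ((Algebra.adjoin (ker D) {z}).algebraMap_mem ⟨x, hx⟩))
  have k2 : V.valuation z < 1 :=
    V.mem_nonunits_iff.1 (h2 ⟨_, Ideal.mem_span_singleton_self _, rfl⟩)
  have k3 : ∀ x ∈ ker D, x ≠ 0 → V.valuation x = 1 := fun x hx h0 => (k1 x hx).antisymm (by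
    have := k1 _ (inv_mem hx)
    rwa [map_inv₀, inv_le_one₀ (zero_lt_iff.2 (by simpa using h0))] at this)
  refine ⟨⟨fun a b => b ∈ ker D ∧ V.valuation (a - b) < 1, ⟨one_mem _, by simp⟩,
    fun {a b a' b'} s s' => ⟨add_mem s.1 s'.1, ?_⟩, fun {a b a' b'} s s' => ⟨mul_mem s.1 s'.1, ?_⟩,
    fun {a b} s => ⟨neg_mem s.1, ?_⟩, fun {a b} s h0 => ⟨inv_mem s.1, ?_⟩, fun {b} s => ?_⟩,
    fun x hx => ⟨hx, by simp⟩, zero_mem _, by simpa using k2⟩
  · rw [add_sub_add_comm]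
    exact V.valuation.map_add_lt s.2 s'.2
  · rw [show a * a' - b * b' = (a - b) * (a' - b') + (a - b) * b' + (a' - b') * b by ring]
    refine V.valuation.map_add_lt (V.valuation.map_add_lt ?_ ?_) ?_ <;> rw [map_mul]
    exacts [mul_lt_one_of_lt_of_le s.2 s'.2.le, mul_lt_one_of_lt_of_le s.2 (k1 _ s'.1),
      mul_lt_one_of_lt_of_le s'.2 (k1 _ s.1)]
  · rw [neg_sub_neg, Valuation.map_sub_swap]
    exact s.2
  · have e1 := k3 b s.1 h0
    have e2 : V.valuation a = 1 := by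
      rw [← e1]
      exact V.valuation.map_eq_of_sub_lt (e1 ▸ s.2)
    have a0 : a ≠ 0 := fun c => by simp [c] at e2
    rw [inv_sub_inv a0 h0, map_div₀, map_mul, e1, e2, Valuation.map_sub_swap]
    simpa using s.2
  · by_contra c
    simpa [k3 b s.1 c] using s.2

namespace Pc

variable (P : Pc Ω) {a b a' b' : Ω} {n : Type} {x y x' y' : n → Ω}

/-- Specialization of vectors. -/
def V (x y : n → Ω) : Prop := ∀ i, P.s (x i) (y i)

lemma zero : P.s 0 0 := by simpa using P.add P.one (P.neg P.one)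

lemma two : P.s 2 2 := by simpa [one_add_one_eq_two] using P.add P.one P.one

variable {P}

lemma sub (h : P.s a b) (h' : P.s a' b') : P.s (a - a') (b - b') := by
  simpa [sub_eq_add_neg] using P.add h (P.neg h')

lemma div (h : P.s a b) (h' : P.s a' b') (h0 : b' ≠ 0) : P.s (a / a') (b / b') := by
  simpa [div_eq_mul_inv] using P.mul h (P.inv h' h0)

lemma ne (h : P.s a b) (h0 : b ≠ 0) : a ≠ 0 := fun e => h0 (P.nz (e ▸ h))

lemma V.add0 (h : P.V x y) (h0 : P.s a 0) (h' : P.V x' y') : P.V (x + a • x') y := fun i => by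
  simpa using P.add (h i) (P.mul h0 (h' i))

variable [Fintype n]

lemma V.dot (h : P.V x y) (h' : P.V x' y') : P.s (x ⬝ᵥ x') (y ⬝ᵥ y') := by
  classical
  have (T : Finset n) : P.s (∑ i ∈ T, x i * x' i) (∑ i ∈ T, y i * y' i) := by
    induction T using Finset.induction_on with
    | empty => simpa using P.zero
    | insert i T hi ih =>
      rw [Finset.sum_insert hi, Finset.sum_insert hi]
      exact P.add (P.mul (h i) (h' i)) ih
  exact this _

lemma V.mulVec {A : Matrix n n Ω} (hA : ∀ i, P.V (A i) (A i)) (h : P.V x y) :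
    P.V (A *ᵥ x) (A *ᵥ y) := fun i => (hA i).dot h

end Pc

variable [Fintype ι] [DecidableEq ι] (P : Pc Ω) (A : Matrix (Option ι) (Option ι) Ω)
  (h y a : Option ι → Ω) (ζ τ : Ω)

/-- The data of a grazing place. -/
structure Dat : Prop where
  sy : A.IsSymm
  cA : ∀ i, P.V (A i) (A i)
  ch : P.V h h
  cτ : P.s τ τ
  z : P.s ζ 0
  z0 : ζ ≠ 0
  τ0 : τ ≠ 0
  ep : sp (A *ᵥ y) ⬝ᵥ sp (A *ᵥ y) ≠ 0
  Q0 : a ⬝ᵥ A *ᵥ a ≠ 0

/-- A vertex and a second point of the edge near the grazing position. -/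
structure Near (μ : Ω) (q v : Option ι → Ω) : Prop where
  q0 : q ⬝ᵥ A *ᵥ q = 0
  th : q ⬝ᵥ A *ᵥ v = ζ * τ
  sq : P.V q y
  sv : P.V v a
  mu : P.s (h ⬝ᵥ q / ζ) μ

variable {P A h y a ζ τ} {μ : Ω} {q v : Option ι → Ω}

lemma Near.ep (d : Dat P A h y a ζ τ) (n : Near P A h y a ζ τ μ q v) :
    sp (A *ᵥ q) ⬝ᵥ sp (A *ᵥ q) ≠ 0 :=
  have := Pc.V.mulVec d.cA n.sq
  Pc.ne (Pc.V.dot (fun i => this (some i)) fun i => this (some i)) d.ep

lemma Near.step (d : Dat P A h y a ζ τ) (n : Near P A h y a ζ τ μ q v) {v' : Option ι → Ω}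
    (e : v' = v + (-(2 * (ζ * τ)) / (sp (A *ᵥ q) ⬝ᵥ sp (A *ᵥ q))) • vec (sp (A *ᵥ q))) :
    v' ⬝ᵥ A *ᵥ v' ≠ 0 ∧ Near P A h y a ζ τ (μ + 2 * τ * (h ⬝ᵥ a) / (a ⬝ᵥ A *ᵥ a))
      (q + (2 * (ζ * τ) / (v' ⬝ᵥ A *ᵥ v')) • v') v' := by
  have h1 := Pc.V.mulVec d.cA n.sq
  have h2 : P.s (2 * (ζ * τ)) 0 := by simpa using P.mul P.two (P.mul d.z d.cτ)
  have h3 : P.V v' a := e ▸ n.sv.add0 (y' := vec (sp (A *ᵥ y))) (by
    have : P.V (sp (A *ᵥ q)) (sp (A *ᵥ y)) := fun i => h1 (some i)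
    simpa using Pc.div (P.neg h2) (this.dot this) d.ep)
    fun o => by
      cases o
      exacts [P.zero, h1 _]
  have h4 := h3.dot (Pc.V.mulVec d.cA h3)
  have h5 := Pc.ne h4 d.Q0
  have h6 : q ⬝ᵥ A *ᵥ v' = -(ζ * τ) := by
    have := n.ep d
    rw [e, mulVec_add, dotProduct_add, n.th, mulVec_smul, dotProduct_smul, symm_dot d.sy, vec_dot,
      smul_eq_mul]
    field_simp
    ring
  have z0 := d.z0
  refine ⟨h5, ?_, ?_, n.sq.add0 (by simpa using Pc.div h2 h4 d.Q0) h3, h3, ?_⟩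
  · simp only [mulVec_add, mulVec_smul, dotProduct_add, add_dotProduct, dotProduct_smul,
      smul_dotProduct, symm_dot d.sy v' q, h6, n.q0, smul_eq_mul]
    field_simp
    ring
  · simp only [add_dotProduct, smul_dotProduct, h6, smul_eq_mul]
    field_simp
    ring
  · rw [show h ⬝ᵥ (q + (2 * (ζ * τ) / (v' ⬝ᵥ A *ᵥ v')) • v') / ζ =
      h ⬝ᵥ q / ζ + 2 * τ * (h ⬝ᵥ v') / (v' ⬝ᵥ A *ᵥ v') by
        rw [dotProduct_add, dotProduct_smul, smul_eq_mul]
        field_simp]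
    exact P.add n.mu (Pc.div (P.mul (P.mul P.two d.cτ) (d.ch.dot h3)) h4 d.Q0)

/-- The edge is not tangent to a quadric that touches the mirror along a hyperplane section. -/
lemma Near.dsc (d : Dat P A h y a ζ τ) (n : Near P A h y a ζ τ μ q v) {c : Ω} {g : Option ι → Ω}
    (hc : P.s c c) (c0 : c ≠ 0) (hg : P.V g g) (H : g ⬝ᵥ y = 0 → ∃ e, P.s e e ∧ g = e • h ∧
      c * τ ^ 2 + 2 * τ * e ^ 2 * (h ⬝ᵥ a) * μ - a ⬝ᵥ A *ᵥ a * e ^ 2 * μ ^ 2 ≠ 0) :
    (c * q ⬝ᵥ A *ᵥ v + g ⬝ᵥ q * g ⬝ᵥ v) ^ 2 -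
      (c * v ⬝ᵥ A *ᵥ v + g ⬝ᵥ v * g ⬝ᵥ v) * (c * q ⬝ᵥ A *ᵥ q + g ⬝ᵥ q * g ⬝ᵥ q) ≠ 0 := fun k => by
  rw [n.q0, n.th] at k
  have h1 := n.sv.dot (Pc.V.mulVec d.cA n.sv)
  have h2 := P.mul d.z d.cτ
  have h3 := hg.dot n.sq
  have k1 : c * (ζ * τ * (ζ * τ)) + 2 * (ζ * τ) * (g ⬝ᵥ q * g ⬝ᵥ v) -
      v ⬝ᵥ A *ᵥ v * (g ⬝ᵥ q * g ⬝ᵥ q) = 0 := mul_left_cancel₀ c0 (by linear_combination k)
  have h4 := Pc.sub (P.add (P.mul hc (P.mul h2 h2)) (P.mul (P.mul P.two h2)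
    (P.mul h3 (hg.dot n.sv)))) (P.mul h1 (P.mul h3 h3))
  rw [k1] at h4
  obtain ⟨e, e1, rfl, e2⟩ := H (by simpa [d.Q0] using P.nz h4)
  have h5 := P.mul e1 e1
  have h6 := Pc.sub (P.add (P.mul hc (P.mul d.cτ d.cτ)) (P.mul (P.mul (P.mul (P.mul P.two d.cτ) h5)
    (d.ch.dot n.sv)) n.mu)) (P.mul (P.mul h1 h5) (P.mul n.mu n.mu))
  refine Pc.ne h6 (fun c => e2 (by linear_combination c)) ?_
  have z0 := d.z0
  simp only [smul_dotProduct, smul_eq_mul] at k1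
  field_simp
  linear_combination k1

/-- The vertex is not on a constant hyperplane. -/
lemma Near.lin (n : Near P A h y a ζ τ μ q v) (h0 : μ ≠ 0) {g : Option ι → Ω} (hg : P.V g g)
    (H : g ⬝ᵥ y = 0 → ∃ e : Ω, e ≠ 0 ∧ g = e • h) : g ⬝ᵥ q ≠ 0 := fun k => by
  obtain ⟨e, e0, rfl⟩ := H (P.nz (k ▸ hg.dot n.sq))
  rw [smul_dotProduct, smul_eq_mul, mul_eq_zero, or_iff_right e0] at k
  exact Pc.ne n.mu h0 (by rw [k, zero_div])

end Pool.Agent.MP_249f74_an.H42.S2
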