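import Pool.Agent.MP_249f74_an.H42.S2a
import Pool.Agent.MP_249f74_an.H17.CmGen

/-!
The grazing place of an edge that is tangent to a tangent cone of the mirror.
-/

open Matrix

namespace Pool.Agent.MP_249f74_an.H42.S2

open H17.Cm (hat vec sp symm_dot dv dv_dot dv_add dv_sub dv_smul)

variable {C Ω ι : Type} [Field C] [Field Ω] [Algebra C Ω] [Fintype ι] [DecidableEq ι]

lemma dv_mulVec {D : Derivation C Ω Ω} {A : Matrix ι ι Ω} (h : ∀ i, dv D (A i) = 0) (x : ι → Ω) :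
    dv D (A *ᵥ x) = A *ᵥ dv D x := funext fun i => by
  change D (A i ⬝ᵥ x) = A i ⬝ᵥ dv D x
  rw [dv_dot, h, zero_dotProduct, zero_add]

lemma init [CharZero Ω] (D : Derivation C Ω Ω) {A : Matrix (Option ι) (Option ι) Ω}
    {h z p d : Option ι → Ω} {c t u e : Ω} (sy : A.IsSymm) (c0 : c ≠ 0)
    (dA : ∀ i, dv D (A i) = 0) (dh : dv D h = 0) (dz : dv D z = 0) (dc : D c = 0)
    (hz : c • A *ᵥ z = -h) (h1 : h ⬝ᵥ z = 1) (pp : c * p ⬝ᵥ A *ᵥ p + h ⬝ᵥ p * h ⬝ᵥ p = 0)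
    (pd : c * p ⬝ᵥ A *ᵥ d + h ⬝ᵥ p * h ⬝ᵥ d = 0)
    (nn : sp (c • A *ᵥ p + (h ⬝ᵥ p) • h) ⬝ᵥ sp (c • A *ᵥ p + (h ⬝ᵥ p) • h) ≠ 0)
    {a : Option ι → Ω} (ha : a = p - t • d) (aa : c * a ⬝ᵥ A *ᵥ a + h ⬝ᵥ a * h ⬝ᵥ a ≠ 0)
    (Q0 : a ⬝ᵥ A *ᵥ a ≠ 0) (Da : dv D a = 0) (Dd : t ≠ 0 → t • dv D d = z - e • p)
    (P0 : (a + u • d) ⬝ᵥ A *ᵥ (a + u • d) = 0) (Pd : (a + u • d) ⬝ᵥ A *ᵥ d ≠ 0) :
    ∃ (P : Pc Ω) (s ζ τ μ ω : Ω), (∀ x, D x = 0 → P.s x x) ∧ s ≠ 0 ∧ ω ≠ 0 ∧ u ≠ 0 ∧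
      Dat P A h (s • (p - (h ⬝ᵥ p) • z)) a ζ τ ∧
      Near P A h (s • (p - (h ⬝ᵥ p) • z)) a ζ τ μ ((ω / u) • (a + u • d)) a ∧
      c * τ ^ 2 + 2 * τ * (h ⬝ᵥ a) * μ - a ⬝ᵥ A *ᵥ a * μ ^ 2 = 0 := by
  have Az : ∀ x, x ⬝ᵥ A *ᵥ z = -(h ⬝ᵥ x) / c := fun x => by
    have := congrArg (x ⬝ᵥ ·) hz
    simp only [dotProduct_smul, dotProduct_neg, smul_eq_mul, dotProduct_comm x h] at this
    field_simp
    linear_combination this
  have zA : ∀ x, z ⬝ᵥ A *ᵥ x = -(h ⬝ᵥ x) / c := fun x => by rw [symm_dot sy, Az]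
  have dp := symm_dot sy d p
  have b1 : c * a ⬝ᵥ A *ᵥ a + h ⬝ᵥ a * h ⬝ᵥ a = t ^ 2 * (c * d ⬝ᵥ A *ᵥ d + h ⬝ᵥ d * h ⬝ᵥ d) := by
    simp only [ha, mulVec_sub, mulVec_smul, dotProduct_sub, sub_dotProduct, dotProduct_smul,
      smul_dotProduct, smul_eq_mul, dp]
    linear_combination pp - 2 * t * pd
  rw [b1, mul_ne_zero_iff, pow_ne_zero_iff two_ne_zero] at aa
  obtain ⟨t0, dd⟩ := aa
  have Dd' : dv D d = t⁻¹ • (z - e • p) := by rw [← Dd t0, inv_smul_smul₀ t0]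
  have Dp : dv D p = D t • d + (z - e • p) := by
    rw [ha, dv_sub, dv_smul, Dd t0, sub_eq_zero] at Da
    exact Da
  have Dt : D t = 0 := by
    have := congrArg D pd
    simp only [map_add, Derivation.leibniz, dv_dot, dv_mulVec dA, dh, dc, Dd', Dp, map_zero,
      mulVec_sub, mulVec_smul, dotProduct_sub, sub_dotProduct, dotProduct_smul, dotProduct_add,
      add_dotProduct, smul_dotProduct, smul_eq_mul, zero_dotProduct, h1, Az, zA] at this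
    refine (mul_eq_zero.1 ?_).resolve_right dd
    field_simp at this
    refine mul_left_cancel₀ t0 ?_
    linear_combination this + e * pp + e * t * pd
  rw [Dt, zero_smul, zero_add] at Dp
  have Dh : D (h ⬝ᵥ p) = 1 - e * h ⬝ᵥ p := by
    rw [dv_dot, dh, Dp, zero_dotProduct, zero_add, dotProduct_sub, h1, dotProduct_smul, smul_eq_mul]
  generalize hy : p - (h ⬝ᵥ p) • z = y
  have Dy : dv D y = -e • y := by
    rw [← hy, dv_sub, dv_smul, Dh, Dp, dz]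
    ext i
    simp
    ring
  have Ay : c • A *ᵥ y = c • A *ᵥ p + (h ⬝ᵥ p) • h := by
    rw [← hy, mulVec_sub, mulVec_smul, smul_sub, smul_comm c, hz, smul_neg, sub_neg_eq_add]
  rw [← Ay] at nn
  obtain ⟨i, hi⟩ : ∃ i, y i ≠ 0 := by
    by_contra k
    push Not at k
    simp [show y = 0 from funext k, sp, dotProduct] at nn
  have Di : D (y i) = -e * y i := congrFun Dy i
  have hy0 : h ⬝ᵥ y = 0 := by
    rw [← hy, dotProduct_sub, dotProduct_smul, h1, smul_eq_mul, mul_one, sub_self]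
  have yA : ∀ x, y ⬝ᵥ A *ᵥ x = (c * p ⬝ᵥ A *ᵥ x + h ⬝ᵥ p * h ⬝ᵥ x) / c := fun x => by
    rw [← hy, sub_dotProduct, smul_dotProduct, zA, smul_eq_mul]
    field_simp
    ring
  have ya : y ⬝ᵥ A *ᵥ a = 0 := by
    simp only [yA, ha, mulVec_sub, mulVec_smul, dotProduct_sub, dotProduct_smul, smul_eq_mul]
    field_simp
    linear_combination pp - t * pd
  have yy : y ⬝ᵥ A *ᵥ y = 0 := by
    rw [yA, symm_dot sy, yA, pp, hy0]
    simp
  have Dζ : D (h ⬝ᵥ p / y i) = (y i)⁻¹ := by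
    rw [Derivation.leibniz_div, Dh, Di]
    simp only [smul_eq_mul]
    field_simp
    ring
  have Dζ' : D (h ⬝ᵥ p / y i) ≠ 0 := Dζ ▸ inv_ne_zero hi
  have z0 : h ⬝ᵥ p / y i ≠ 0 := fun k => Dζ' (by rw [k, map_zero])
  have hp : h ⬝ᵥ p ≠ 0 := fun k => z0 (by rw [k, zero_div])
  have u0 : u ≠ 0 := fun k => Q0 (by simpa [k] using P0)
  obtain ⟨P, k1, k2⟩ := exists_pc D Dζ'
  have kv : ∀ {x : Option ι → Ω}, dv D x = 0 → P.V x x := fun h i => k1 _ (congrFun h i)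
  have Dy' : dv D ((y i)⁻¹ • y) = 0 := by
    rw [dv_smul, Dy, Derivation.leibniz_inv, Di]
    ext j
    simp
    field_simp
    ring
  have eq : (t / y i / u) • (a + u • d) =
      (y i)⁻¹ • y + (h ⬝ᵥ p / y i) • (z + ((t - u) / (u * h ⬝ᵥ p)) • a) := by
    ext j
    have e1 := congrFun hy j
    have e2 := congrFun ha j
    simp only [Pi.sub_apply, Pi.add_apply, Pi.smul_apply, smul_eq_mul] at e1 e2 ⊢
    field_simp
    linear_combination u * e1 + u * e2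
  have ω0 : t / y i ≠ 0 := div_ne_zero t0 hi
  have q0 : ((t / y i / u) • (a + u • d)) ⬝ᵥ A *ᵥ ((t / y i / u) • (a + u • d)) = 0 := by
    rw [mulVec_smul, dotProduct_smul, smul_dotProduct, P0, smul_zero, smul_zero]
  have qa : ((t / y i / u) • (a + u • d)) ⬝ᵥ A *ᵥ a ≠ 0 := by
    rw [mulVec_add, mulVec_smul, dotProduct_add, dotProduct_smul, add_eq_zero_iff_eq_neg] at P0
    rw [smul_dotProduct, P0]
    exact mul_ne_zero (div_ne_zero ω0 u0) (neg_ne_zero.2 (mul_ne_zero u0 Pd))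
  rw [eq] at q0 qa
  generalize (t - u) / (u * h ⬝ᵥ p) = ν at q0 qa eq
  generalize h ⬝ᵥ p / y i = ζ at *
  have th : ((y i)⁻¹ • y + ζ • (z + ν • a)) ⬝ᵥ A *ᵥ a = ζ * (ν * a ⬝ᵥ A *ᵥ a - h ⬝ᵥ a / c) := by
    simp only [add_dotProduct, smul_dotProduct, ya, zA, smul_eq_mul]
    ring
  have τ0 : ν * a ⬝ᵥ A *ᵥ a - h ⬝ᵥ a / c ≠ 0 := right_ne_zero_of_mul (th ▸ qa)
  have en : c * (a ⬝ᵥ A *ᵥ a) * ν ^ 2 - 2 * (h ⬝ᵥ a) * ν - 1 = 0 := by
    simp only [mulVec_add, mulVec_smul, dotProduct_add, add_dotProduct, dotProduct_smul,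
      smul_dotProduct, smul_eq_mul, Az, zA, yy, ya, symm_dot sy a y, hy0, h1] at q0
    refine mul_left_cancel₀ (div_ne_zero (pow_ne_zero 2 z0) c0) ?_
    linear_combination (norm := skip) q0
    field_simp
    ring
  have D1 : D (a ⬝ᵥ A *ᵥ a) = 0 := by simp [dv_dot, dv_mulVec dA, Da]
  have D2 : D (h ⬝ᵥ a) = 0 := by simp [dv_dot, dh, Da]
  have D3 : D 2 = 0 := by simpa using D.map_natCast 2
  have Dν : D ν = 0 := by
    have := congrArg D en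
    simp only [map_sub, Derivation.leibniz, sq, D1, D2, D3, dc, smul_eq_mul, map_zero,
      D.map_one_eq_zero] at this
    refine (mul_eq_zero.1 ?_).resolve_left (mul_ne_zero (mul_ne_zero two_ne_zero c0) τ0)
    field_simp
    linear_combination this
  have Dτ : D (ν * a ⬝ᵥ A *ᵥ a - h ⬝ᵥ a / c) = 0 := by
    simp [Derivation.leibniz_div, D1, D2, dc, Dν]
  refine ⟨P, (y i)⁻¹, ζ, _, 1 + ν * h ⬝ᵥ a, _, k1, inv_ne_zero hi, ω0, u0,
    ⟨sy, fun j => kv (dA j), kv dh, k1 _ Dτ, k2, z0, τ0, fun k => nn ?_, Q0⟩, ?_, ?_⟩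
  · simp only [mulVec_smul, H17.Cm.sp_smul, dotProduct_smul, smul_dotProduct, smul_eq_mul,
      mul_eq_zero, inv_eq_zero, hi, false_or] at k ⊢
    exact .inr (.inr k)
  · rw [eq]
    refine ⟨q0, th, (kv Dy').add0 k2 (kv (by rw [dv_add, dv_smul, dz, Da, Dν]; simp)), kv Da, ?_⟩
    rw [show h ⬝ᵥ ((y i)⁻¹ • y + ζ • (z + ν • a)) / ζ = 1 + ν * h ⬝ᵥ a by
      simp only [dotProduct_add, dotProduct_smul, hy0, h1, smul_eq_mul]
      field_simp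
      ring]
    exact k1 _ (by simp [D2, Dν])
  · field_simp
    linear_combination (c * a ⬝ᵥ A *ᵥ a + (h ⬝ᵥ a) ^ 2) * en

end Pool.Agent.MP_249f74_an.H42.S2
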