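import Pool.Agent.MP_249f74_an.H96A.Spec

/-!
Abstract systems of reflections: definitions and the list of the geometric inputs.
-/

namespace Pool.Agent.MP_249f74_an.H42

open H96A (Fx Inv Full sg Pl)

variable {C Ω κ : Type} [Field C] [Field Ω] [Algebra C Ω]

/-- Evaluation at an edge. -/
noncomputable def ev (l : κ → Ω) : MvPolynomial κ C →ₐ[C] Ω := MvPolynomial.aeval l

variable (C) in
/-- Generic edges. -/
def Gen (l : κ → Ω) : Prop := ∀ F : MvPolynomial κ C, ev l F = 0 → F = 0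

variable (C) in
/-- Generic points of hypersurfaces in the space of edges. -/
def Cur (l : κ → Ω) : Prop := ∃ π : MvPolynomial κ C, Prime π ∧ ∀ F, ev l F = 0 ↔ π ∣ F

variable (C) in
/-- The automorphisms that fix an edge. -/
def FL (l : κ → Ω) : Subgroup (Ω ≃ₐ[C] Ω) := Fx C (Set.range l)

/-- The image of an edge. -/
def mp (σ : Ω ≃ₐ[C] Ω) (l : κ → Ω) : κ → Ω := fun i => σ (l i)

variable (C Ω κ) in
/-- The field is algebraic over the field of a generic edge. -/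
def Sf : Prop := ∀ l : κ → Ω, Gen C l → ∀ a, a ∈ H88.cl C (Set.range l)

/-- The edge is fixed by the inertia element and specializes to the second edge. -/
structure Sp (P : Pl C Ω) (l k : κ → Ω) : Prop where
  sp : ∀ i, P.sp (l i) (k i)
  fx : P.σ ∈ FL C l

variable (C) in
/-- The automorphisms that fix a chain. -/
def Hg (L : ℤ → κ → Ω) (t : ℤ → Ω) (a b : ℤ) : Subgroup (Ω ≃ₐ[C] Ω) where
  carrier := {σ | (∀ i, a ≤ i → i ≤ b → σ ∈ FL C (L i)) ∧ ∀ i, a ≤ i → i < b → σ (t i) = t i}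
  mul_mem' := fun h h' => ⟨fun i h1 h2 => mul_mem (h.1 i h1 h2) (h'.1 i h1 h2), fun i h1 h2 => by
    rw [AlgEquiv.mul_apply, h'.2 i h1 h2, h.2 i h1 h2]⟩
  one_mem' := ⟨fun _ _ _ => one_mem _, fun _ _ _ => rfl⟩
  inv_mem' := fun {σ} h => ⟨fun i h1 h2 => inv_mem (h.1 i h1 h2), fun i h1 h2 =>
    σ.symm_apply_eq.2 (h.2 i h1 h2).symm⟩

variable (C Ω κ) in
/-- Mirrors and their reflections. A vertex is given by its parameter on the two edges. -/
structure Sys where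
  /-- the mirrors -/
  M : Type
  /-- the parameters of the points of the mirror on an edge -/
  Pts : M → (κ → Ω) → Finset Ω
  /-- reflection at a simple point with a non isotropic normal -/
  St : M → (κ → Ω) → Ω → (κ → Ω) → Prop
  /-- the square class of the discriminant of the section -/
  Δ : M → MvPolynomial κ C
  /-- generic tangent edges -/
  Tl : M → (κ → Ω) → Prop
  /-- quadrics -/
  Qd : M → Prop
  /-- commuting mirrors -/
  Cm : M → M → Prop
  /-- edges on the same line -/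
  Same : (κ → Ω) → (κ → Ω) → Prop

namespace Sys

variable (S : Sys C Ω κ)

/-- Chains with the vertices `a ≤ i < b` and the edges `a ≤ i ≤ b`. -/
structure Chn (m : ℤ → S.M) (L : ℤ → κ → Ω) (t : ℤ → Ω) (a b : ℤ) : Prop where
  st : ∀ i, a ≤ i → i < b → S.St (m i) (L i) (t i) (L (i + 1))
  nb : ∀ i, a ≤ i → i + 1 < b → t i ≠ t (i + 1)

/-- Equal mirrors that are separated only by mirrors that commute with them are adjacent. -/
def Red (m : ℤ → S.M) (a b : ℤ) : Prop :=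
  ∀ i j, a ≤ i → i < j → j < b → m i = m j → (∀ k, i < k → k < j → S.Cm (m i) (m k)) → j = i + 1

/-- Elementary properties of reflections. -/
structure Bas : Prop where
  symm : ∀ m l t l', S.St m l t l' → S.St m l' t l
  mem : ∀ m l t l', S.St m l t l' → t ∈ S.Pts m l
  stb : ∀ m l, ∀ σ ∈ FL C l, ∀ t ∈ S.Pts m l, σ t ∈ S.Pts m l
  map : ∀ m l t l' (σ : Ω ≃ₐ[C] Ω), S.St m l t l' → S.St m (mp σ l) (σ t) (mp σ l')
  det : ∀ m l t l' l'', S.St m l t l' → S.St m l t l'' → l' = l''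
  gen : ∀ m l t l', S.St m l t l' → Gen C l → Gen C l'
  cur : ∀ m l t l', S.St m l t l' → Cur C l → Cur C l'
  dis : ∀ m m' l t, Gen C l → t ∈ S.Pts m l → t ∈ S.Pts m' l → m = m'
  two : ∀ m l, S.Qd m → (S.Pts m l).card ≤ 2
  card : ∀ m l, Gen C l → 2 ≤ (S.Pts m l).card
  qd : ∀ m l, Gen C l → (S.Pts m l).card = 2 → S.Qd m
  cs : ∀ m m', S.Cm m m' → S.Cm m' m
  ci : ∀ m, ¬S.Cm m m

/-- Simple points of sections lift along places. -/
def LIFT : Prop :=
  ∀ (P : Pl C Ω) m l k k' u, Gen C l → Sp P l k → S.St m k u k' →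
    ∃ t l', S.St m l t l' ∧ Sp P l' k' ∧ P.sp t u ∧ P.σ t = t

/-- The Galois group of a section and its sign. -/
structure Sec : Prop where
  full : ∀ m l, Gen C l → Full (FL C l) (S.Pts m l)
  sqf : ∀ m, Squarefree (S.Δ m)
  sgn : ∀ m l, Gen C l → ∀ σ ∈ FL C l, ∀ r, r ^ 2 = ev l (S.Δ m) →
    σ r = ((sg σ (S.Pts m l) : ℤ) : Ω) * r
  ex : ∀ m, ∃ k, S.Tl m k
  cur : ∀ m k, S.Tl m k → Cur C k
  own : ∀ m k, S.Tl m k → ev k (S.Δ m) = 0
  oth : ∀ m m' k, S.Tl m k → m' ≠ m → ev k (S.Δ m') ≠ 0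
  tid : ∀ m k k', S.Tl m k → S.Tl m k' → ∀ F : MvPolynomial κ C, ev k F = 0 → ev k' F = 0
  tq : ∀ m k, S.Qd m → Cur C k → ev k (S.Δ m) = 0 → S.Tl m k

/-- The sign of the section of a mirror passes a commuting mirror. -/
def PASS : Prop :=
  ∀ m m' l t l', S.Cm m m' → Gen C l → S.St m l t l' → ∀ σ ∈ FL C l, σ t = t →
    sg σ (S.Pts m' l) = sg σ (S.Pts m' l')

/-- A tangent complex in a finite class. -/
def CLASS : Prop :=
  ∀ m m' (G : MvPolynomial κ C) k, G ≠ 0 → S.Tl m' k → ev k G = 0 →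
    (∀ l t l', S.St m l t l' → Cur C l → ev l G = 0 → ev l' G = 0) →
    S.Cm m m' ∨ (m' = m ∧ S.Qd m)

/-- The orbit of a tangent complex of a quadric on which the section of a quadric splits. -/
def SPLIT : Prop :=
  ∀ m m' k u k', S.Qd m → S.Qd m' → m' ≠ m → ¬S.Cm m m' → S.Tl m' k → S.St m k u k' →
    Inv (FL C k) u → ∃ (K : ℤ → κ → Ω) (w : ℤ → Ω), K 0 = k ∧ w 0 = u ∧
      (∀ n, S.Chn (fun _ => m) K w 0 n) ∧
      (∀ G : MvPolynomial κ C, G ≠ 0 → ∃ N, ∀ i, N ≤ i → ev (K i) G ≠ 0) ∧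
      ∀ i m'', 2 ≤ i → S.Qd m'' → m'' ≠ m → S.Tl m'' (K i) → ¬Inv (FL C (K i)) (w i)

/-- Chains in one mirror that do not close up. -/
def END : Prop :=
  ∀ m (L : ℤ → κ → Ω) (t : ℤ → Ω) (n : ℤ), 0 < n → n = 1 ∨ S.Qd m →
    S.Chn (fun _ => m) L t (-n) n → Gen C (L 0) → ¬S.Same (L (-n)) (L n)

/-- A reduced chain does not close up. -/
def FIN : Prop :=
  ∀ (m : ℤ → S.M) (L : ℤ → κ → Ω) (t : ℤ → Ω) (a e : ℤ), a < e → S.Chn m L t a e →
    Gen C (L a) → S.Red m a e → ¬∀ σ ∈ FL C (L a), S.Same (mp σ (L e)) (L e)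

/-- The product of the discriminants. -/
noncomputable def R (J : Finset S.M) (l : κ → Ω) : Ω := ∏ T ∈ J, ev l (S.Δ T)

/-- The discriminants are independent. -/
def IND : Prop :=
  ∀ (J : Finset S.M) l r, Gen C l → Inv (FL C l) r → r ^ 2 = S.R J l → J = ∅

open Classical in
/-- The free points at the right end of a chain. -/
noncomputable def Fr (m : ℤ → S.M) (L : ℤ → κ → Ω) (t : ℤ → Ω) (a b : ℤ) : Finset Ω :=
  if a < b then (S.Pts (m b) (L b)).erase (t (b - 1)) else S.Pts (m b) (L b)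

open Classical in
/-- The free points at the left end of a chain. -/
noncomputable def Fl (m : ℤ → S.M) (L : ℤ → κ → Ω) (t : ℤ → Ω) (a b : ℤ) : Finset Ω :=
  if a < b then (S.Pts (m (a - 1)) (L a)).erase (t a) else S.Pts (m (a - 1)) (L a)

section Chain

variable (m : ℤ → S.M) (L : ℤ → κ → Ω) (t : ℤ → Ω)

/-- The next vertex on the right is free. -/
def FR (a b : ℤ) : Prop := Full (Hg C L t a b) (S.Fr m L t a b)

/-- The next vertex on the left is free. -/
def FF (a b : ℤ) : Prop := Full (Hg C L t a b) (S.Fl m L t a b)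

/-- The signs at both ends are independent. -/
def NL (a b : ℤ) : Prop :=
  a < b ∨ m (a - 1) ≠ m b → 2 ≤ (S.Fr m L t a b).card →
    ∃ σ ∈ Hg C L t a b, sg σ (S.Pts (m (a - 1)) (L a)) ≠ sg σ (S.Pts (m b) (L b))

/-- The vertices `b ≤ i < e` form the last maximal run of equal mirrors. -/
structure Run (a b e : ℤ) : Prop where
  ab : a ≤ b
  be : b < e
  eq : ∀ i, b ≤ i → i < e → m i = m (e - 1)
  ne : a < b → m (b - 1) ≠ m (e - 1)

/-- The function `x * R J (L e)` is a square, where `x` is defined before `b`. -/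
structure Rel (a b e : ℤ) (x r : Ω) (J : Finset S.M) : Prop where
  x0 : x ≠ 0
  hx : Inv (Hg C L t a b) x
  hr : Inv (Hg C L t a e) r
  sq : r ^ 2 = x * S.R J (L e)

/-- Relations at the end of a chain. -/
def G2 (a e : ℤ) : Prop :=
  ∀ b x r J, S.Run m a b e → S.Rel L t a b e x r J →
    ∀ T ∈ J, S.Cm (m (e - 1)) T ∨ (T = m (e - 1) ∧ S.Qd T)

/-- Functions of the last edge that are squares in the field of the chain. -/
def G1 (a e : ℤ) : Prop :=
  ∀ x r, x ≠ 0 → Inv (FL C (L e)) x → Inv (Hg C L t a e) r → r ^ 2 = x →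
    ∃ (J : Finset S.M) (w : Ω), Inv (FL C (L e)) w ∧ w ^ 2 = x * S.R J (L e) ∧
      ∀ T ∈ J, S.Qd T ∧ ∃ p, a ≤ p ∧ p < e ∧ m p = T ∧ ∀ k, p < k → k < e → S.Cm T (m k)

end Chain

/-- Relations over a run of one mirror. -/
def BR : Prop :=
  ∀ (m : ℤ → S.M) (L : ℤ → κ → Ω) (t : ℤ → Ω) (b e : ℤ) (x r : Ω) (J : Finset S.M),
    S.Chn m L t b e → Gen C (L b) → S.Run m b b e → (∀ i, b ≤ i → i < e → S.FR m L t b i) →
    (∀ i, b < i → i ≤ e → S.FF m L t i e) → S.Rel L t b b e x r J →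
    ∀ T ∈ J, S.Cm (m (e - 1)) T ∨ (T = m (e - 1) ∧ S.Qd T)

/-- Norms along a run of one quadric. -/
def QUAD : Prop :=
  ∀ (m : S.M) (L : ℤ → κ → Ω) (t : ℤ → Ω) (n : ℤ) (r : Ω) (J J' : Finset S.M), 0 < n → S.Qd m →
    S.Chn (fun _ => m) L t (-n) n → Gen C (L 0) → m ∉ J → m ∉ J' → (∀ T ∈ J', S.Qd T) →
    Inv (FL C (L 0)) r → r ^ 2 = S.R J (L (-n)) * S.R J' (L 0) * S.R J (L n) → ∀ T ∈ J, S.Cm m T

end Sys

end Pool.Agent.MP_249f74_an.H42
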