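import Pool.Agent.MP_249f74_an.H42.Run

/-!
Discriminants pass commuting mirrors; the induction on the length of a chain.
-/

namespace Pool.Agent.MP_249f74_an.H42.Sys

open H96A (Fx Inv Full sg Pl grp mv mem_Fx_one)
open scoped Classical

variable {C Ω κ : Type} [Field C] [Field Ω] [IsAlgClosed Ω] [Algebra C Ω]
variable {S : Sys C Ω κ} {m : ℤ → S.M} {L : ℤ → κ → Ω} {t : ℤ → Ω} {a b e : ℤ}

omit [IsAlgClosed Ω] in
lemma sg_pass (hB : S.Bas) (hP : S.PASS) (hc : S.Chn m L t b e) (hg : Gen C (L b)) {T : S.M}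
    (h : ∀ k, b ≤ k → k < e → S.Cm (m k) T) {σ : Ω ≃ₐ[C] Ω} (hσ : σ ∈ Hg C L t b e) {i : ℤ}
    (h1 : b ≤ i) (h2 : i ≤ e) : sg σ (S.Pts T (L b)) = sg σ (S.Pts T (L i)) := by
  induction i, h1 using Int.leInduction with
  | base => rfl
  | succ i hi ih =>
    exact (ih (by omega)).trans (hP _ _ _ _ _ (h i hi h2) (hc.gen hB hg le_rfl (by omega) hi
      (by omega)) (hc.st i hi h2) σ (hσ.1 i hi (by omega)) (hσ.2 i hi h2))

lemma move (hS : S.Sec) {l l' : κ → Ω} (hl : Gen C l) (hl' : Gen C l') {H : Subgroup (Ω ≃ₐ[C] Ω)}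
    (h1 : H ≤ FL C l) (h2 : H ≤ FL C l') (J : Finset S.M)
    (h : ∀ T ∈ J, ∀ σ ∈ H, sg σ (S.Pts T l) = sg σ (S.Pts T l')) :
    ∃ z, Inv H z ∧ z ^ 2 = S.R J l * S.R J l' := by
  induction J using Finset.induction_on with
  | empty => exact ⟨1, fun σ _ => map_one σ, by simp [R]⟩
  | insert T J hT ih =>
    obtain ⟨z, z1, z2⟩ := ih fun T k => h T (Finset.mem_insert_of_mem k)
    obtain ⟨ρ, hρ⟩ := IsAlgClosed.exists_pow_nat_eq (ev l (S.Δ T)) two_pos
    obtain ⟨w, w1, w2⟩ := hS.root hl' T h2 (u := ρ) fun σ hσ => by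
      rw [hS.sgn T l hl σ (h1 hσ) ρ hρ, h T (Finset.mem_insert_self _ _) σ hσ]
    refine ⟨w * z, w1.mul z1, ?_⟩
    rw [mul_pow, w2, z2, hρ, R, R, R, R, Finset.prod_insert hT, Finset.prod_insert hT]
    ring

/-- A relation is moved from the right end of the chain to the left end. -/
lemma walk (hB : S.Bas) (hS : S.Sec) (hP : S.PASS) {z : ℤ} (hd : S.Red m a z) {x : Ω} (x0 : x ≠ 0)
    (hx : Inv (FL C (L a)) x) (hg : Gen C (L a)) (n : ℕ) : ∀ e (J : Finset S.M) r, e ≤ a + n →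
    a ≤ e → e ≤ z → S.Chn m L t a e → (∀ j, a < j → j ≤ e → S.G2 m L t a j) →
    (∀ i, a ≤ i → i < e → S.FR m L t a i) →
    (∀ T ∈ J, ∃ p, e ≤ p ∧ p < z ∧ m p = T ∧ (∀ k, e ≤ k → k < p → S.Cm T (m k)) ∧
      (p = e → S.Qd T → a < e → m (e - 1) ≠ T)) →
    Inv (Hg C L t a e) r → r ^ 2 = x * S.R J (L e) →
    (∀ T ∈ J, ∀ k, a ≤ k → k < e → S.Cm T (m k)) ∧ ∃ (J' : Finset S.M) (w : Ω), J ⊆ J' ∧
      Inv (FL C (L a)) w ∧ w ^ 2 = x * S.R J' (L a) ∧ ∀ T ∈ J', T ∉ J →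
        S.Qd T ∧ ∃ p, a ≤ p ∧ p < e ∧ m p = T ∧ ∀ k, a ≤ k → k < p → S.Cm T (m k) := by
  have base : ∀ (J : Finset S.M) r, Inv (Hg C L t a a) r → r ^ 2 = x * S.R J (L a) →
      (∀ T ∈ J, ∀ k, a ≤ k → k < a → S.Cm T (m k)) ∧ ∃ (J' : Finset S.M) (w : Ω), J ⊆ J' ∧
      Inv (FL C (L a)) w ∧ w ^ 2 = x * S.R J' (L a) ∧ ∀ T ∈ J', T ∉ J →
        S.Qd T ∧ ∃ p, a ≤ p ∧ p < a ∧ m p = T ∧ ∀ k, a ≤ k → k < p → S.Cm T (m k) :=
    fun J r h1 h2 => ⟨fun _ _ k k1 k2 => by omega, J, r, le_rfl, by rwa [hg_self] at h1, h2,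
      fun T k k' => absurd k k'⟩
  induction n with
  | zero =>
    intro e J r h1 h2 _ _ _ _ _
    obtain rfl : e = a := by omega
    exact base J r
  | succ n ih =>
    intro e J r h1 h2 hz hc hG hF hJ hr hs
    rcases h2.eq_or_lt with rfl | h2
    · exact base J r hr hs
    obtain ⟨b, hb⟩ := exists_run m h2
    have hab := hb.ab
    have hbe := hb.be
    have hgen : ∀ i, a ≤ i → i ≤ e → Gen C (L i) := fun i => hc.gen hB hg le_rfl h2.le
    have hx' : Inv (Hg C L t a b) x := hx.mono (hg_fl le_rfl hab)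
    have hcm : ∀ T ∈ J, S.Cm (m (e - 1)) T := fun T hT =>
      (hG e h2 le_rfl b x r J hb ⟨x0, hx', hr, hs⟩ T hT).resolve_right fun k => by
        obtain ⟨p, p1, p2, p3, p4, p5⟩ := hJ T hT
        have := hd (e - 1) p (by omega) (by omega) p2 (k.1.symm.trans p3.symm) fun j j1 j2 =>
          k.1 ▸ p4 j (by omega) j2
        exact p5 (by omega) k.2 h2 k.1.symm
    have hcm' : ∀ T ∈ J, ∀ k, b ≤ k → k < e → S.Cm (m k) T := fun T hT k k1 k2 =>
      hb.eq k k1 k2 ▸ hcm T hT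
    obtain ⟨y, y1, y2⟩ := move hS (hgen b hab hbe.le) (hgen e h2.le le_rfl) (hg_fl hab hbe.le)
      (hg_fl h2.le le_rfl) J fun T hT σ hσ => sg_pass hB hP (hc.mono hab le_rfl)
        (hgen b hab hbe.le) (hcm' T hT) (hg_mono hab le_rfl hσ) hbe.le le_rfl
    have p0 := hS.R0 (hgen e h2.le le_rfl) J
    have u1 : Inv (Hg C L t a e) (r * y / S.R J (L e)) :=
      (hr.mul y1).div ((inv_R _ _).mono (hg_fl h2.le le_rfl))
    have u2 : (r * y / S.R J (L e)) ^ 2 = x * S.R J (L b) := by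
      rw [div_pow, mul_pow, hs, y2]
      field_simp
    generalize r * y / S.R J (L e) = u at u1 u2
    have hJ' : ∀ T ∈ J, ∃ p, b ≤ p ∧ p < z ∧ m p = T ∧ (∀ k, b ≤ k → k < p → S.Cm T (m k)) ∧
        (p = b → S.Qd T → a < b → m (b - 1) ≠ T) := fun T hT => by
      obtain ⟨p, p1, p2, p3, p4, -⟩ := hJ T hT
      exact ⟨p, by omega, p2, p3, fun k k1 k2 => (lt_or_ge k e).elim
        (fun c => hB.cs _ _ (hcm' T hT k k1 c)) fun c => p4 k c k2, fun c => by omega⟩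
    have fin : ∀ T ∈ J, (∀ k, a ≤ k → k < b → S.Cm T (m k)) → ∀ k, a ≤ k → k < e → S.Cm T (m k) :=
      fun T hT h k k1 k2 => (lt_or_ge k b).elim (h k k1) fun c => hB.cs _ _ (hcm' T hT k c k2)
    have ih' := fun J r => ih b J r (by omega) hab (by omega) (hc.mono le_rfl hbe.le)
      (fun j j1 j2 => hG j j1 (by omega)) fun i i1 i2 => hF i i1 (by omega)
    by_cases c : Inv (Hg C L t a b) u
    · obtain ⟨k1, J', w, k2, k3, k4, k5⟩ := ih' J u hJ' c u2
      refine ⟨fun T hT => fin T hT (k1 T hT), J', w, k2, k3, k4, fun T hT hT' => ?_⟩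
      obtain ⟨q, p, p1, p2, p3⟩ := k5 T hT hT'
      exact ⟨q, p, p1, by omega, p3⟩
    have u3 : Inv (Hg C L t a b) (u ^ 2) := u2 ▸ hx'.mul ((inv_R _ _).mono (hg_fl hab le_rfl))
    have u0 : u ^ 2 ≠ 0 := u2 ▸ mul_ne_zero x0 (hS.R0 (hgen b hab hbe.le) J)
    obtain ⟨i, i1, i2, i3, i4⟩ := first hB hc hab hbe.le le_rfl ⊤
      (fun i i1 i2 => by rw [inf_top_eq]; exact hF i (by omega) i2) (u := u) (by rwa [inf_top_eq])
      (by rwa [inf_top_eq]) (by rwa [inf_top_eq])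
    rw [inf_top_eq] at i4
    have gi := hgen i (by omega) i2.le
    obtain ⟨w, w1, w2⟩ := hS.root gi (m i) (hg_fl (by omega) le_rfl) i4
    have hm := hb.eq i i1 i2
    rcases i1.eq_or_lt with rfl | i1
    · rw [(hc.mono le_rfl hbe.le).fr_eq hB gi fun k => hm ▸ hb.ne k] at i3
      have hn : m b ∉ J := fun k => hB.ci _ (hcm' _ k b le_rfl hbe)
      obtain ⟨k1, J', w, k2, k3, k4, k5⟩ := ih' (insert (m b) J) w (fun T hT => by
        rcases Finset.mem_insert.1 hT with rfl | hT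
        · exact ⟨b, le_rfl, by omega, rfl, fun k k1 k2 => by omega, fun _ _ k => hm ▸ hb.ne k⟩
        · exact hJ' T hT) w1 (by rw [w2, u2, R, R, Finset.prod_insert hn]; ring)
      refine ⟨fun T hT => fin T hT (k1 T (Finset.mem_insert_of_mem hT)), J', w,
        (Finset.subset_insert _ _).trans k2, k3, k4, fun T hT hT' => ?_⟩
      by_cases c' : T = m b
      · exact ⟨c' ▸ hB.qd _ _ gi i3, b, hab, hbe, c'.symm, k1 T (by simp [c'])⟩
      · obtain ⟨q, p, p1, p2, p3⟩ := k5 T hT (by simp [c', hT'])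
        exact ⟨q, p, p1, by omega, p3⟩
    · have hm' : m (i - 1) = m i := (hb.eq _ (by omega) (by omega)).trans hm.symm
      have := (hc.mono le_rfl i2.le).card_fr hB (by omega) hm'
      rcases hG i (by omega) i2.le b _ w {m i} (hb.mono le_rfl hab i1 i2.le)
        ⟨u0, u3, w1, by simpa [R] using w2⟩ _ (Finset.mem_singleton_self _) with k | k
      · exact absurd (hm' ▸ k) (hB.ci _)
      · have := hB.two _ (L i) k.2
        omega

/-- The reversed form of `G1`. -/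
lemma g1' (hB : S.Bas) (hS : S.Sec) (hP : S.PASS) (hc : S.Chn m L t a e) (hg : Gen C (L a))
    (hae : a ≤ e) (hd : S.Red m a e) (hG : ∀ j, a < j → j < e → S.G2 m L t a j)
    (hF : ∀ i, a ≤ i → i < e → S.FR m L t a i) {x r : Ω} (x0 : x ≠ 0) (hx : Inv (FL C (L a)) x)
    (hr : Inv (Hg C L t a e) r) (hs : r ^ 2 = x) :
    ∃ (J : Finset S.M) (w : Ω), Inv (FL C (L a)) w ∧ w ^ 2 = x * S.R J (L a) ∧
      ∀ T ∈ J, S.Qd T ∧ ∃ p, a ≤ p ∧ p < e ∧ m p = T ∧ ∀ k, a ≤ k → k < p → S.Cm T (m k) := by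
  by_cases c : Inv (FL C (L a)) r
  · exact ⟨∅, r, c, by simp [R, hs], by simp⟩
  obtain ⟨i, i1, i2, i3, i4⟩ := first hB hc le_rfl hae le_rfl ⊤
    (fun i i1 i2 => by rw [inf_top_eq]; exact hF i i1 i2) (u := r) (by rwa [inf_top_eq])
    (by rwa [inf_top_eq, hg_self, hs]) (by rwa [inf_top_eq, hg_self])
  rw [inf_top_eq] at i4
  have gi := hc.gen hB hg le_rfl hae i1 i2.le
  have ci := hc.mono le_rfl i2.le
  obtain ⟨w, w1, w2⟩ := hS.root gi (m i) (hg_fl i1 le_rfl) i4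
  obtain ⟨k1, J, w, -, k3, k4, k5⟩ := walk hB hS hP hd x0 hx hg (i - a).toNat i {m i} w (by omega)
    i1 i2.le ci (fun j j1 j2 => hG j j1 (by omega)) (fun j j1 j2 => hF j j1 (by omega))
    (fun T hT => by
      obtain rfl := Finset.mem_singleton.1 hT
      refine ⟨i, le_rfl, i2, rfl, fun k k1 k2 => by omega, fun _ q k e => ?_⟩
      have := ci.card_fr hB k e
      have := hB.two _ (L i) q
      omega) w1 (by simpa [R, hs] using w2)
  refine ⟨J, w, k3, k4, fun T hT => ?_⟩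
  by_cases c' : T = m i
  · have := k1 T (by simp [c'])
    rw [ci.fr_eq hB gi fun k e => hB.ci T (by
      simpa only [e, ← c'] using this (i - 1) (by omega) (by omega))] at i3
    exact ⟨c' ▸ hB.qd _ _ gi i3, i, i1, i2, c'.symm, this⟩
  · obtain ⟨q, p, p1, p2, p3⟩ := k5 T hT (by simpa using c')
    exact ⟨q, p, p1, by omega, p3⟩

/-- The signs at both ends of a reduced chain are independent. -/
lemma link (hB : S.Bas) (hS : S.Sec) (hP : S.PASS) (hI : S.IND) (hc : S.Chn m L t a b)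
    (hg : Gen C (L a)) (hab : a ≤ b) (hd : S.Red m (a - 1) (b + 1))
    (hG : ∀ j, a < j → j ≤ b → S.G2 m L t a j) (hF : ∀ i, a ≤ i → i < b → S.FR m L t a i) :
    S.NL m L t a b := by
  intro h1 h2
  by_contra h3
  push Not at h3
  have gb := hc.gen hB hg le_rfl hab hab le_rfl
  have x0 := hS.ne hg (m (a - 1))
  obtain ⟨ρ, hρ⟩ := IsAlgClosed.exists_pow_nat_eq (ev (L a) (S.Δ (m (a - 1)))) two_pos
  obtain ⟨w, w1, w2⟩ := hS.root gb (m b) (hg_fl hab le_rfl) (u := ρ) fun σ hσ => by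
    rw [hS.sgn _ _ hg σ (hg_fl le_rfl hab hσ) ρ hρ, h3 σ hσ]
  obtain ⟨k1, J, w, k2, k3, k4, -⟩ := walk hB hS hP (hd.mono (by omega) le_rfl) x0 (inv_ev _ _) hg
    (b - a).toNat b {m b} w (by omega) hab (by omega) hc hG hF (fun T hT => by
      obtain rfl := Finset.mem_singleton.1 hT
      refine ⟨b, le_rfl, by omega, rfl, fun k k1 k2 => by omega, fun _ q k e => ?_⟩
      have := hc.card_fr hB k e
      have := hB.two _ (L b) q
      omega) w1 (by simpa [R, hρ] using w2)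
  by_cases c : m (a - 1) ∈ J
  · have e1 := hI (J.erase (m (a - 1))) _ (w / ev (L a) (S.Δ (m (a - 1)))) hg
      (k3.div (inv_ev _ _)) (by
        rw [div_pow, k4, R, ← Finset.mul_prod_erase _ _ c, R]
        field_simp)
    have e2 : m (a - 1) = m b := by_contra fun k => by
      simpa [e1] using Finset.mem_erase.2 ⟨Ne.symm k, k2 (Finset.mem_singleton_self _)⟩
    have := hd (a - 1) b le_rfl (by omega) (by omega) e2 fun k j1 j2 =>
      e2 ▸ k1 _ (Finset.mem_singleton_self _) k (by omega) j2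
    exact h1.elim (fun k => by omega) fun k => k e2
  · exact Finset.insert_ne_empty _ _ (hI (insert (m (a - 1)) J) _ w hg k3 (by
      rw [k4, R, R, Finset.prod_insert c]))

omit [IsAlgClosed Ω] in
/-- The inductive step for freeness. -/
lemma free (hB : S.Bas) (hab : a < b) (hc : S.Chn m L t a b) (hg : Gen C (L a))
    (hF : S.FF m L t (a + 1) b) (hR : S.FR m L t (a + 1) b) (hN : S.NL m L t (a + 1) b) :
    S.FR m L t a b := by
  have st := hc.st a le_rfl hab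
  have hy := hc.mem_fl hB hab
  have key : ∀ {P Q : Finset Ω}, t a ∈ P → Full (Hg C L t (a + 1) b) Q →
      Full (Hg C L t (a + 1) b ⊓ Fx C P) Q → Full (Hg C L t (a + 1) b ⊓ Fx C {t a}) Q :=
    fun k h h' => h'.mono (inf_le_inf_left _ fun σ hσ => mem_Fx_one.2 (hσ _ k))
      fun σ hσ => h.stb σ hσ.1
  unfold FR FF NL at *
  rw [hc.hg_left hB hab]
  rcases (show a + 1 ≤ b from hab).eq_or_lt with rfl | hlt
  · simp only [Fr, Fl, lt_irrefl, if_false, if_pos hab, add_sub_cancel_right, false_or] at *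
    by_cases e : m a = m (a + 1)
    · exact grp.stab _ _ _ hR (e ▸ hy)
    · rw [Finset.erase_eq_of_notMem fun h => e (hB.dis _ _ _ _ (hB.gen _ _ _ _ st hg) hy h)]
      exact key hy hR (grp.drop _ _ _ hF hR (hN e))
  · rw [show S.Fr m L t a b = S.Fr m L t (a + 1) b by rw [Fr, Fr, if_pos hab, if_pos hlt]]
    refine key hy hR (grp.drop _ _ _ hF hR fun h => ?_)
    obtain ⟨σ, h1, h3⟩ := hN (.inl hlt) h
    exact ⟨σ, h1, by rwa [sg_fl h1, sg_fr h1]⟩

end Pool.Agent.MP_249f74_an.H42.Sys
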